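import Pool.Agent.V5helper82.FT.Face

/-! # Inherited subcomplexes of acyclic complexes are acyclic -/

set_option autoImplicit false

namespace Pool.Agent.V5helper82.FT

open Pool.Agent.Q169.FT
open Pool.Agent.Q169.ZD (par)

noncomputable section

variable {E : ℕ → Type} (bd : ∀ i, E (i + 1) → (E i →₀ ℤ))

/-- the boundary map on chains -/
def bl (i : ℕ) : (E (i + 1) →₀ ℤ) →ₗ[ℤ] (E i →₀ ℤ) := Finsupp.linearCombination ℤ (bd i)

/-- the augmentation -/
def aug : (E 0 →₀ ℤ) →ₗ[ℤ] ℤ := Finsupp.linearCombination ℤ (fun _ => (1 : ℤ))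

/-- chains supported in `A` -/
abbrev su (A : ∀ i, Set (E i)) (i : ℕ) : Submodule ℤ (E i →₀ ℤ) := Finsupp.supported ℤ ℤ (A i)

/-- a chain complex with augmentation -/
structure CC : Prop where
  dd : ∀ i x, bl bd i (bl bd (i + 1) x) = 0
  ad : ∀ x, aug (bl bd 0 x) = 0

/-- relative acyclicity -/
def AcyP (A B : ∀ i, Set (E i)) : Prop :=
  (∀ x ∈ su A 0, ∃ y ∈ su A 1, x - bl bd 0 y ∈ su B 0) ∧
  ∀ i, ∀ x ∈ su A (i + 1), bl bd i x ∈ su B i → ∃ y ∈ su A (i + 2), x - bl bd (i + 1) y ∈ su B (i + 1)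

/-- acyclicity (the empty complex is allowed) -/
def AcyS (A : ∀ i, Set (E i)) : Prop :=
  (∀ x ∈ su A 0, aug x = 0 → ∃ y ∈ su A 1, bl bd 0 y = x) ∧
  ∀ i, ∀ x ∈ su A (i + 1), bl bd i x = 0 → ∃ y ∈ su A (i + 2), bl bd (i + 1) y = x

variable {bd}

lemma bl_single (i : ℕ) (e : E (i + 1)) (n : ℤ) : bl bd i (Finsupp.single e n) = n • bd i e :=
  Finsupp.linearCombination_single ℤ n e

lemma su_single {A : ∀ i, Set (E i)} {i : ℕ} {e : E i} (he : e ∈ A i) (n : ℤ) :
    Finsupp.single e n ∈ su A i := Finsupp.single_mem_supported ℤ n he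

lemma su_mono {A B : ∀ i, Set (E i)} {i : ℕ} (h : A i ⊆ B i) : su A i ≤ su B i :=
  Finsupp.supported_mono h

/-- induction on chains supported in `A` -/
lemma su_ind {A : ∀ i, Set (E i)} {i : ℕ} {P : (E i →₀ ℤ) → Prop} (h0 : P 0)
    (ha : ∀ x y, P x → P y → P (x + y)) (hs : ∀ (n : ℤ) x, P x → P (n • x))
    (h1 : ∀ e ∈ A i, P (Finsupp.single e 1)) : ∀ x ∈ su A i, P x := by
  intro x hx
  rw [su, Finsupp.supported_eq_span_single] at hx
  refine Submodule.span_induction (p := fun v _ => P v) ?_ h0 (fun x y _ _ => ha x y)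
    (fun n x _ => hs n x) hx
  rintro _ ⟨e, he, rfl⟩
  exact h1 e he

/-- two linear maps which agree on the cells of `A` modulo `S` -/
lemma su_congr {A : ∀ i, Set (E i)} {i j : ℕ} (f g : (E i →₀ ℤ) →ₗ[ℤ] (E j →₀ ℤ))
    (S : Submodule ℤ (E j →₀ ℤ))
    (h : ∀ e ∈ A i, f (Finsupp.single e 1) - g (Finsupp.single e 1) ∈ S) :
    ∀ x ∈ su A i, f x - g x ∈ S := by
  refine su_ind (P := fun x => f x - g x ∈ S) (by simp) (fun x y hx hy => ?_) (fun n x hx => ?_) h
  · rw [map_add, map_add, add_sub_add_comm]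
    exact S.add_mem hx hy
  · rw [map_smul, map_smul, ← smul_sub]
    exact S.smul_mem n hx

lemma su_map {A B : ∀ i, Set (E i)} {i j : ℕ} (f : (E i →₀ ℤ) →ₗ[ℤ] (E j →₀ ℤ))
    (h : ∀ e ∈ A i, f (Finsupp.single e 1) ∈ su B j) : ∀ x ∈ su A i, f x ∈ su B j := by
  intro x hx
  have := su_congr f 0 (su B j) (fun e he => by simpa using h e he) x hx
  simpa using this

lemma bl_mem {A : ∀ i, Set (E i)} (hA : IsSub bd A) {i : ℕ} {x : E (i + 1) →₀ ℤ}
    (hx : x ∈ su A (i + 1)) : bl bd i x ∈ su A i := by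
  refine su_map (bl bd i) (fun e he => ?_) x hx
  rw [bl_single, one_smul, Finsupp.mem_supported]
  intro f hf
  exact hA i e f he (Finsupp.mem_support_iff.1 hf)

theorem seqZ (hc : CC bd) {A B : ∀ i, Set (E i)} (hBA : ∀ i, B i ⊆ A i) (hA : AcyS bd A)
    (hAB : AcyP bd A B) : AcyS bd B := by
  constructor
  · intro x hx h0
    obtain ⟨y, hy, hxy⟩ := hA.1 x (su_mono (hBA 0) hx) h0
    obtain ⟨z, hz, hz'⟩ := hAB.2 0 y hy (hxy ▸ hx)
    refine ⟨_, hz', ?_⟩
    rw [map_sub, hc.dd, sub_zero, hxy]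
  · intro i x hx h0
    obtain ⟨y, hy, hxy⟩ := hA.2 i x (su_mono (hBA _) hx) h0
    obtain ⟨z, hz, hz'⟩ := hAB.2 (i + 1) y hy (hxy ▸ hx)
    refine ⟨_, hz', ?_⟩
    rw [map_sub, hc.dd, sub_zero, hxy]

lemma su_split {A₁ A₂ : ∀ i, Set (E i)} {i : ℕ} {z : E i →₀ ℤ}
    (hz : z ∈ su (fun i => A₁ i ∪ A₂ i) i) : ∃ z₁ ∈ su A₁ i, ∃ z₂ ∈ su A₂ i, z = z₁ + z₂ := by
  have h : z ∈ su A₁ i ⊔ su A₂ i := by
    rw [su, su, ← Finsupp.supported_union]
    exact hz
  obtain ⟨z₁, h₁, z₂, h₂, h⟩ := Submodule.mem_sup.1 h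
  exact ⟨z₁, h₁, z₂, h₂, h.symm⟩

lemma su_inter {A₁ A₂ : ∀ i, Set (E i)} {i : ℕ} {z : E i →₀ ℤ} (h₁ : z ∈ su A₁ i)
    (h₂ : z ∈ su A₂ i) : z ∈ su (fun i => A₁ i ∩ A₂ i) i := by
  rw [Finsupp.mem_supported] at h₁ h₂ ⊢
  exact Set.subset_inter h₁ h₂

theorem mvZ (hc : CC bd) {A₁ A₂ : ∀ i, Set (E i)} (hs₁ : IsSub bd A₁) (hs₂ : IsSub bd A₂)
    (h₁ : AcyS bd A₁) (h₂ : AcyS bd A₂) (h : AcyS bd (fun i => A₁ i ∪ A₂ i)) :
    AcyS bd (fun i => A₁ i ∩ A₂ i) := by
  have key : ∀ i (x : E i →₀ ℤ) (y₁ y₂ : E (i + 1) →₀ ℤ), y₁ ∈ su A₁ (i + 1) →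
      y₂ ∈ su A₂ (i + 1) → bl bd i y₁ = x → bl bd i y₂ = x →
      ∃ w ∈ su (fun i => A₁ i ∩ A₂ i) (i + 1), bl bd i w = x := by
    intro i x y₁ y₂ hy₁ hy₂ e₁ e₂
    obtain ⟨z, hz, hz'⟩ := h.2 i (y₁ - y₂) (Submodule.sub_mem _
      (su_mono (B := fun i => A₁ i ∪ A₂ i) Set.subset_union_left hy₁)
      (su_mono (B := fun i => A₁ i ∪ A₂ i) Set.subset_union_right hy₂))
      (by rw [map_sub, e₁, e₂, sub_self])
    obtain ⟨z₁, hz₁, z₂, hz₂, rfl⟩ := su_split hz
    refine ⟨y₁ - bl bd (i + 1) z₁, su_inter (Submodule.sub_mem _ hy₁ (bl_mem hs₁ hz₁)) ?_, ?_⟩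
    · have e3 : y₁ - bl bd (i + 1) z₁ = y₂ + bl bd (i + 1) z₂ := by
        rw [map_add] at hz'
        have : y₁ = y₂ + (bl bd (i + 1) z₁ + bl bd (i + 1) z₂) := by rw [hz']; abel
        rw [this]; abel
      rw [e3]
      exact Submodule.add_mem _ hy₂ (bl_mem hs₂ hz₂)
    · rw [map_sub, hc.dd, sub_zero, e₁]
  constructor
  · intro x hx h0
    obtain ⟨y₁, hy₁, e₁⟩ := h₁.1 x (su_mono (B := A₁) Set.inter_subset_left hx) h0
    obtain ⟨y₂, hy₂, e₂⟩ := h₂.1 x (su_mono (B := A₂) Set.inter_subset_right hx) h0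
    exact key 0 x y₁ y₂ hy₁ hy₂ e₁ e₂
  · intro i x hx h0
    obtain ⟨y₁, hy₁, e₁⟩ := h₁.2 i x (su_mono (B := A₁) Set.inter_subset_left hx) h0
    obtain ⟨y₂, hy₂, e₂⟩ := h₂.2 i x (su_mono (B := A₂) Set.inter_subset_right hx) h0
    exact key (i + 1) x y₁ y₂ hy₁ hy₂ e₁ e₂

theorem retrZ {A B : ∀ i, Set (E i)} {r : ∀ i, E i → (E i →₀ ℤ)} {m : ℕ}
    (hr : Retr bd B A r m) (hB : AcyS bd B) : AcyS bd A := by
  let R : ∀ i, (E i →₀ ℤ) →ₗ[ℤ] (E i →₀ ℤ) := fun i => Finsupp.linearCombination ℤ (r i)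
  have hR1 : ∀ i (e : E i), R i (Finsupp.single e 1) = r i e := fun i e => by
    rw [Finsupp.linearCombination_single, one_smul]
  have hmem : ∀ i, ∀ x ∈ su B i, R i x ∈ su A i := fun i => su_map (R i) fun e he => by
    rw [hR1, Finsupp.mem_supported]
    intro f hf
    exact hr.supp i e he f (Finsupp.mem_support_iff.1 hf)
  have hid : ∀ i, ∀ x ∈ su A i, R i x = x := by
    intro i x hx
    have := su_congr (R i) LinearMap.id ⊥ (fun e he => by
      rw [hR1, hr.id i e he, LinearMap.id_apply, sub_self]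
      exact Submodule.zero_mem _) x hx
    exact sub_eq_zero.1 ((Submodule.mem_bot ℤ).1 this)
  have hch : ∀ i, ∀ x ∈ su B (i + 1), bl bd i (R (i + 1) x) = R i (bl bd i x) := by
    intro i x hx
    have := su_congr ((bl bd i).comp (R (i + 1))) ((R i).comp (bl bd i)) ⊥ (fun e he => by
      rw [LinearMap.comp_apply, LinearMap.comp_apply, hR1, bl_single, one_smul]
      have h1 := hr.chain i e he
      have h2 : bl bd i (r (i + 1) e) = R i (bd i e) := by
        rw [bl, Finsupp.linearCombination_apply, Finsupp.linearCombination_apply]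
        exact h1
      rw [h2, sub_self]
      exact Submodule.zero_mem _) x hx
    exact sub_eq_zero.1 ((Submodule.mem_bot ℤ).1 this)
  constructor
  · intro x hx h0
    obtain ⟨y, hy, hxy⟩ := hB.1 x (su_mono (hr.le 0) hx) h0
    refine ⟨R 1 y, hmem 1 y hy, ?_⟩
    rw [hch 0 y hy, hxy, hid 0 x hx]
  · intro i x hx h0
    obtain ⟨y, hy, hxy⟩ := hB.2 i x (su_mono (hr.le _) hx) h0
    refine ⟨R (i + 2) y, hmem _ y hy, ?_⟩
    rw [hch (i + 1) y hy, hxy, hid (i + 1) x hx]

section refl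

variable {T : Type} {M : CoxeterMatrix T} {K : Type} [Group K] {cs : CoxeterSystem M K}
  {B C : ∀ i, Set (E i)} {mir : ∀ i, E i → Set T} {κ : ∀ i, E i → K → E i}

open scoped Classical

/-- the integral sign -/
def sz (cs : CoxeterSystem M K) (w : K) : ℤ := (-1) ^ cs.length w

lemma sz_mul_simple (w : K) (s : T) : sz cs (w * cs.simple s) = - sz cs w := by
  unfold sz
  rcases cs.length_mul_simple w s with h | h
  · rw [h, pow_succ]; ring
  · rw [← h, pow_succ]; ring

/-- antisymmetrisation over `K_J` -/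
def sC (cs : CoxeterSystem M K) [Fintype K] (κ : ∀ i, E i → K → E i) (J : Set T) (i : ℕ) :
    (E i →₀ ℤ) →ₗ[ℤ] (E i →₀ ℤ) := Finsupp.linearCombination ℤ fun e =>
  ∑ u : K, (if u ∈ par cs J then sz cs u else 0) • Finsupp.single (κ i e u) 1

lemma sC_single [Fintype K] (J : Set T) (i : ℕ) (e : E i) :
    sC cs κ J i (Finsupp.single e 1) =
      ∑ u : K, (if u ∈ par cs J then sz cs u else 0) • Finsupp.single (κ i e u) 1 := by
  rw [sC, Finsupp.linearCombination_single, one_smul]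

/-- an antisymmetric sum over `K_J` vanishes -/
lemma sum_anti [Fintype K] {A : Type} [AddCommGroup A] (J : Set T) {s : T} (hs : s ∈ J)
    (g : K → A) (hg : ∀ u, g (u * cs.simple s) = g u) (h2 : ∀ a : A, a = -a → a = 0) :
    ∑ u : K, (if u ∈ par cs J then sz cs u else 0) • g u = 0 := by
  apply h2
  have h1 : ∀ u : K, (if u * cs.simple s ∈ par cs J then sz cs (u * cs.simple s) else 0) •
      g (u * cs.simple s) = - ((if u ∈ par cs J then sz cs u else 0) • g u) := by
    intro u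
    have hsm : cs.simple s ∈ par cs J := Subgroup.subset_closure ⟨s, hs, rfl⟩
    have h3 : u * cs.simple s ∈ par cs J ↔ u ∈ par cs J :=
      Subgroup.mul_mem_cancel_right _ hsm
    rw [hg, sz_mul_simple]
    by_cases hu : u ∈ par cs J
    · rw [if_pos hu, if_pos (h3.2 hu), neg_smul]
    · rw [if_neg hu, if_neg fun h => hu (h3.1 h), zero_smul, neg_zero]
  have h4 : ∑ u : K, (if u * cs.simple s ∈ par cs J then sz cs (u * cs.simple s) else 0) •
      g (u * cs.simple s) = ∑ u : K, (if u ∈ par cs J then sz cs u else 0) • g u :=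
    Equiv.sum_comp (Equiv.mulRight (cs.simple s))
      (fun u => (if u ∈ par cs J then sz cs u else 0) • g u)
  rw [Finset.sum_congr rfl fun u _ => h1 u, Finset.sum_neg_distrib] at h4
  exact h4.symm

lemma int_neg {ι : Type} (a : ι →₀ ℤ) (h : a = -a) : a = 0 := by
  refine Finsupp.ext fun i => ?_
  have := DFunLike.congr_fun h i
  rw [Finsupp.neg_apply] at this
  rw [Finsupp.zero_apply]
  omega

lemma sC_mem [Fintype K] (hR : Refl bd cs B C mir κ) (J : Set T) (i : ℕ) :
    ∀ x ∈ su C i, sC cs κ J i x ∈ su B i := su_map _ fun e he => by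
  rw [sC_single]
  exact Submodule.sum_mem _ fun u _ => Submodule.smul_mem _ _ (su_single (hR.mem i e he u) 1)

lemma sC_zero [Fintype K] (hR : Refl bd cs B C mir κ) (J : Set T) (i : ℕ) :
    ∀ x ∈ su (un C mir J) i, sC cs κ J i x = 0 := by
  intro x hx
  have := su_congr (sC cs κ J i) 0 ⊥ (fun e he => by
    obtain ⟨he, s, hs, hsJ⟩ := he
    rw [sC_single, sum_anti J hsJ (fun u => Finsupp.single (κ i e u) (1 : ℤ)) (fun u => by
      congr 1
      refine ((hR.inj i e he e he _ _).2 ⟨rfl, ?_⟩).symm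
      rw [inv_mul_cancel_left]
      exact Subgroup.subset_closure ⟨s, hs, rfl⟩) int_neg]
    simp) x hx
  simpa using this

lemma bl_sC [Fintype K] (hR : Refl bd cs B C mir κ) (J : Set T) (i : ℕ) :
    ∀ x ∈ su C (i + 1), bl bd i (sC cs κ J (i + 1) x) = sC cs κ J i (bl bd i x) := by
  intro x hx
  have := su_congr ((bl bd i).comp (sC cs κ J (i + 1))) ((sC cs κ J i).comp (bl bd i)) ⊥
    (fun e he => by
      rw [LinearMap.comp_apply, LinearMap.comp_apply, sC_single, map_sum, bl_single, one_smul]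
      have h1 : ∀ u : K, bl bd i ((if u ∈ par cs J then sz cs u else 0) •
          Finsupp.single (κ (i + 1) e u) 1) = (if u ∈ par cs J then sz cs u else 0) •
          (bd i e).sum fun f n => n • Finsupp.single (κ i f u) (1 : ℤ) := by
        intro u
        rw [map_smul, bl_single, one_smul, hR.bd_smul i e he u]
        congr 1
        rw [Finsupp.mapDomain]
        refine Finset.sum_congr rfl fun f _ => ?_
        beta_reduce
        rw [Finsupp.smul_single, smul_eq_mul, mul_one]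
      rw [Finset.sum_congr rfl fun u _ => h1 u]
      have h2 : sC cs κ J i (bd i e) = (bd i e).sum fun f n => n •
          ∑ u : K, (if u ∈ par cs J then sz cs u else 0) • Finsupp.single (κ i f u) (1 : ℤ) := by
        rw [sC, Finsupp.linearCombination_apply]
      rw [h2, Submodule.mem_bot, sub_eq_zero]
      unfold Finsupp.sum
      simp only [Finset.smul_sum]
      rw [Finset.sum_comm]
      exact Finset.sum_congr rfl fun f _ => Finset.sum_congr rfl fun u _ => smul_comm _ _ _) x hx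
  exact sub_eq_zero.1 ((Submodule.mem_bot ℤ).1 this)

/-- projection to the chamber -/
def pC (cs : CoxeterSystem M K) (C : ∀ i, Set (E i)) (κ : ∀ i, E i → K → E i) (J : Set T)
    (i : ℕ) : (E i →₀ ℤ) →ₗ[ℤ] (E i →₀ ℤ) := Finsupp.linearCombination ℤ fun x =>
  if h : ∃ e ∈ C i, ∃ w ∈ par cs Jᶜ, κ i e w = x then Finsupp.single h.choose 1 else 0

lemma pC_mem (J : Set T) (i : ℕ) (x : E i →₀ ℤ) : pC cs C κ J i x ∈ su C i := by
  have hx : x ∈ su (fun i => (Set.univ : Set (E i))) i := by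
    rw [Finsupp.mem_supported]; exact fun _ _ => trivial
  refine su_map (pC cs C κ J i) (fun e _ => ?_) x hx
  rw [pC, Finsupp.linearCombination_single, one_smul]
  split_ifs with h
  · exact su_single h.choose_spec.1 1
  · exact Submodule.zero_mem _

lemma pC_kappa (hR : Refl bd cs B C mir κ) (J : Set T) {i : ℕ} {e : E i} (he : e ∈ C i) (w : K) :
    pC cs C κ J i (Finsupp.single (κ i e w) 1) -
      (if w ∈ par cs Jᶜ then Finsupp.single e 1 else 0) ∈ su (un C mir J) i := by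
  rw [pC, Finsupp.linearCombination_single, one_smul]
  by_cases hw : w ∈ par cs Jᶜ
  · have h : ∃ e' ∈ C i, ∃ w' ∈ par cs Jᶜ, κ i e' w' = κ i e w := ⟨e, he, w, hw, rfl⟩
    rw [dif_pos h, if_pos hw]
    obtain ⟨h1, w', -, h2⟩ := h.choose_spec
    rw [((hR.inj i _ h1 e he w' w).1 h2).1, sub_self]
    exact Submodule.zero_mem _
  · rw [if_neg hw, sub_zero]
    split_ifs with h
    · obtain ⟨h1, w', hw', h2⟩ := h.choose_spec
      obtain ⟨h3, h4⟩ := (hR.inj i _ h1 e he w' w).1 h2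
      have h7 : h.choose ∈ un C mir J i := by
        refine ⟨h1, ?_⟩
        by_contra hm
        apply hw
        have h5 : mir i h.choose ⊆ Jᶜ := fun t ht htJ => hm ⟨t, ht, htJ⟩
        have h6 := mul_mem hw' (par_mono cs h5 h4)
        rwa [mul_inv_cancel_left] at h6
      exact su_single h7 1
    · exact Submodule.zero_mem _

lemma pC_sC [Fintype K] (hR : Refl bd cs B C mir κ) (J : Set T) (i : ℕ) :
    ∀ x ∈ su C i, pC cs C κ J i (sC cs κ J i x) - x ∈ su (un C mir J) i := by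
  refine su_congr ((pC cs C κ J i).comp (sC cs κ J i)) LinearMap.id _ fun e he => ?_
  rw [LinearMap.comp_apply, LinearMap.id_apply, sC_single, map_sum]
  have h1 : Finsupp.single e (1 : ℤ) = ∑ u : K, (if u ∈ par cs J then sz cs u else 0) •
      (if u ∈ par cs Jᶜ then Finsupp.single e (1 : ℤ) else 0) := by
    rw [Finset.sum_eq_single (1 : K)]
    · rw [if_pos (one_mem _), if_pos (one_mem _), sz, cs.length_one, pow_zero, one_smul]
    · intro u _ hu
      by_cases h6 : u ∈ par cs J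
      · rw [if_neg fun h7 => hu (par_inter cs J h6 h7), smul_zero]
      · rw [if_neg h6, zero_smul]
    · intro h; exact absurd (Finset.mem_univ _) h
  have h2 : ∑ u : K, pC cs C κ J i ((if u ∈ par cs J then sz cs u else 0) •
      Finsupp.single (κ i e u) 1) - Finsupp.single e 1 = ∑ u : K,
      (if u ∈ par cs J then sz cs u else 0) • (pC cs C κ J i (Finsupp.single (κ i e u) 1) -
        (if u ∈ par cs Jᶜ then Finsupp.single e (1 : ℤ) else 0)) := by
    conv_lhs => rw [h1]
    rw [← Finset.sum_sub_distrib]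
    exact Finset.sum_congr rfl fun u _ => by rw [map_smul, smul_sub]
  rw [h2]
  exact Submodule.sum_mem _ fun u _ => Submodule.smul_mem _ _ (pC_kappa hR J he u)

lemma pC_id (hR : Refl bd cs B C mir κ) (J : Set T) (i : ℕ) :
    ∀ x ∈ su C i, pC cs C κ J i x - x ∈ su (un C mir J) i := by
  refine su_congr (pC cs C κ J i) LinearMap.id _ fun e he => ?_
  have h1 := pC_kappa hR J he 1
  rw [hR.one i e he, if_pos (one_mem _)] at h1
  exact h1

lemma bl_pC (hR : Refl bd cs B C mir κ) (J : Set T) (i : ℕ) :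
    ∀ x ∈ su B (i + 1), bl bd i (pC cs C κ J (i + 1) x) - pC cs C κ J i (bl bd i x) ∈
      su (un C mir J) i := by
  refine su_congr ((bl bd i).comp (pC cs C κ J (i + 1))) ((pC cs C κ J i).comp (bl bd i)) _
    fun x hx => ?_
  obtain ⟨e, he, w, rfl⟩ := hR.surj _ x hx
  rw [LinearMap.comp_apply, LinearMap.comp_apply]
  have h1 := bl_mem (un_sub hR J) (pC_kappa hR J he w)
  rw [map_sub] at h1
  have h2 : pC cs C κ J i (bl bd i (Finsupp.single (κ (i + 1) e w) 1)) -
      (if w ∈ par cs Jᶜ then bd i e else 0) ∈ su (un C mir J) i := by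
    rw [bl_single, one_smul, hR.bd_smul i e he w, Finsupp.mapDomain, Finsupp.sum, map_sum]
    have h3 : (if w ∈ par cs Jᶜ then bd i e else 0) = ∑ f ∈ (bd i e).support,
        (bd i e f) • (if w ∈ par cs Jᶜ then Finsupp.single f (1 : ℤ) else 0) := by
      split_ifs
      · conv_lhs => rw [← Finsupp.sum_single (bd i e)]
        refine Finset.sum_congr rfl fun f _ => ?_
        rw [Finsupp.smul_single, smul_eq_mul, mul_one]
      · simp
    rw [h3, ← Finset.sum_sub_distrib]
    refine Submodule.sum_mem _ fun f hf => ?_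
    have h4 : Finsupp.single (κ i f w) (bd i e f) = (bd i e f) • Finsupp.single (κ i f w) 1 := by
      rw [Finsupp.smul_single, smul_eq_mul, mul_one]
    rw [h4, map_smul, ← smul_sub]
    exact Submodule.smul_mem _ _
      (pC_kappa hR J (hR.sub i e f he (Finsupp.mem_support_iff.1 hf)) w)
  have h5 : bl bd i (if w ∈ par cs Jᶜ then Finsupp.single e (1 : ℤ) else 0) =
      (if w ∈ par cs Jᶜ then bd i e else 0) := by
    split_ifs
    · rw [bl_single, one_smul]
    · rw [map_zero]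
  rw [h5] at h1
  have := Submodule.sub_mem _ h1 h2
  rw [sub_sub_sub_cancel_right] at this
  exact this

lemma aug_single (e : E 0) (n : ℤ) : aug (Finsupp.single e n) = n := by
  rw [aug, Finsupp.linearCombination_single, smul_eq_mul, mul_one]

lemma aug_sC [Fintype K] {J : Set T} (hJ : J.Nonempty) (x : E 0 →₀ ℤ) :
    aug (sC cs κ J 0 x) = 0 := by
  obtain ⟨s, hs⟩ := hJ
  induction x using Finsupp.induction_linear with
  | zero => simp
  | add x y hx hy => rw [map_add, map_add, hx, hy, add_zero]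
  | single e n =>
    have h1 : Finsupp.single e n = n • Finsupp.single e (1 : ℤ) := by
      rw [Finsupp.smul_single, smul_eq_mul, mul_one]
    rw [h1, map_smul, map_smul, sC_single, map_sum]
    simp only [map_smul, aug_single]
    rw [sum_anti J hs (fun _ => (1 : ℤ)) (fun _ => rfl) (fun a h => by omega), smul_zero]

theorem reflZ (hc : CC bd) (hR : Refl bd cs B C mir κ) (hB : AcyS bd B) {J : Set T}
    (hJ : J.Nonempty) : AcyP bd C (un C mir J) := by
  haveI : Finite K := hR.finite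
  letI : Fintype K := Fintype.ofFinite K
  have fin : ∀ i (x : E i →₀ ℤ) (y : E (i + 1) →₀ ℤ), x ∈ su C i → y ∈ su B (i + 1) →
      bl bd i y = sC cs κ J i x → x - bl bd i (pC cs C κ J (i + 1) y) ∈ su (un C mir J) i := by
    intro i x y hx hy hxy
    have h1 := bl_pC hR J i y hy
    have h2 := pC_sC hR J i x hx
    rw [hxy] at h1
    have h3 := Submodule.neg_mem _ (Submodule.add_mem _ h1 h2)
    have h4 : -(bl bd i (pC cs C κ J (i + 1) y) - pC cs C κ J i (sC cs κ J i x) +
        (pC cs C κ J i (sC cs κ J i x) - x)) = x - bl bd i (pC cs C κ J (i + 1) y) := by abel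
    rw [h4] at h3
    exact h3
  constructor
  · intro x hx
    obtain ⟨y, hy, hxy⟩ := hB.1 _ (sC_mem hR J 0 x hx) (aug_sC hJ x)
    exact ⟨_, pC_mem J 1 y, fin 0 x y hx hy hxy⟩
  · intro i x hx h0
    obtain ⟨y, hy, hxy⟩ := hB.2 i _ (sC_mem hR J (i + 1) x hx) (by
      rw [bl_sC hR J i x hx, sC_zero hR J i _ h0])
    exact ⟨_, pC_mem J (i + 2) y, fin (i + 1) x y hx hy hxy⟩

theorem foldZ (hR : Refl bd cs B C mir κ) (hB : AcyS bd B) : AcyS bd C := by
  have hun : ∀ i (x : E i →₀ ℤ), x ∈ su (un C mir (∅ : Set T)) i → x = 0 := by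
    intro i x hx
    rw [← Finsupp.support_eq_empty, Finset.eq_empty_iff_forall_notMem]
    intro e he
    obtain ⟨-, t, -, ht⟩ := hx he
    exact ht
  have hCB : ∀ i, C i ⊆ B i := fun i e he => hR.one i e he ▸ hR.mem i e he 1
  have fin : ∀ i (x : E i →₀ ℤ) (y : E (i + 1) →₀ ℤ), x ∈ su C i → y ∈ su B (i + 1) →
      bl bd i y = x → bl bd i (pC cs C κ ∅ (i + 1) y) = x := by
    intro i x y hx hy hxy
    have h1 := sub_eq_zero.1 (hun i _ (bl_pC hR ∅ i y hy))
    rw [h1, hxy]
    exact sub_eq_zero.1 (hun i _ (pC_id hR ∅ i x hx))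
  constructor
  · intro x hx h0
    obtain ⟨y, hy, hxy⟩ := hB.1 _ (su_mono (hCB 0) hx) h0
    exact ⟨_, pC_mem ∅ 1 y, fin 0 x y hx hy hxy⟩
  · intro i x hx h0
    obtain ⟨y, hy, hxy⟩ := hB.2 i _ (su_mono (hCB _) hx) h0
    exact ⟨_, pC_mem ∅ (i + 2) y, fin (i + 1) x y hx hy hxy⟩

lemma faceZ (hc : CC bd) (hR : Refl bd cs B C mir κ) (hB : AcyS bd B) {I : Set T}
    (hI : I.Finite) : AcyS bd (fc C mir I) ∧ ∀ J : Set T, J.Nonempty → AcyS bd (DD C mir I J) := by
  have hC : AcyS bd C := foldZ hR hB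
  induction I, hI using Set.Finite.induction_on with
  | empty =>
    constructor
    · have e1 : fc C mir (∅ : Set T) = C := by
        funext i
        ext e
        simp [fc]
      rw [e1]
      exact hC
    · intro J hJ
      have e1 : DD C mir (∅ : Set T) J = un C mir J := by
        funext i
        ext e
        simp [DD, un]
      rw [e1]
      exact seqZ hc (fun i e he => he.1) hC (reflZ hc hR hB hJ)
  | @insert s I _ _ ih =>
    obtain ⟨-, ih⟩ := ih
    constructor
    · have e1 : fc C mir (insert s I) = DD C mir I {s} := by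
        funext i
        ext e
        simp only [fc, DD, Set.mem_ofPred_eq, Set.insert_subset_iff, Set.inter_singleton_nonempty]
        tauto
      rw [e1]
      exact ih {s} ⟨s, rfl⟩
    · intro J hJ
      have e1 : DD C mir (insert s I) J = fun i => DD C mir I {s} i ∩ DD C mir I J i := by
        funext i
        ext e
        simp only [DD, Set.mem_ofPred_eq, Set.insert_subset_iff, Set.inter_singleton_nonempty,
          Set.mem_inter_iff]
        tauto
      have e2 : (fun i => DD C mir I {s} i ∪ DD C mir I J i) = DD C mir I ({s} ∪ J) := by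
        funext i
        ext e
        simp only [DD, Set.mem_ofPred_eq, Set.inter_singleton_nonempty, Set.mem_union,
          Set.inter_union_distrib_left, Set.union_nonempty]
        tauto
      rw [e1]
      refine mvZ hc (DD_sub hR I {s}) (DD_sub hR I J) (ih {s} ⟨s, rfl⟩) (ih J hJ) ?_
      rw [e2]
      exact ih _ ⟨s, Or.inl rfl⟩

end refl

/-- Inherited subcomplexes are acyclic. -/
theorem inh_acy (hc : CC bd) (hu : AcyS bd (fun _ => Set.univ)) {A : ∀ i, Set (E i)}
    (hA : Inh bd A) : AcyS bd A := by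
  induction hA with
  | base => exact hu
  | @face T M K _ cs B C mir κ h hR I ih =>
    have hT : Finite T := by
      have := hR.finite
      exact Finite.of_injective cs.simple (fun i j h => Q27.Cox.simple_inj cs h)
    exact (faceZ hc hR ih (Set.toFinite I)).1
  | @retract B A r m h hr ih => exact retrZ hr ih
  | inter h₁ h₂ h ih₁ ih₂ ih => exact mvZ hc (inh_sub h₁) (inh_sub h₂) ih₁ ih₂ ih

end

end Pool.Agent.V5helper82.FT
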