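import Pool.Agent.Q169.FT.Stm

/-!
Definitions for the theorem on inherited subcomplexes: spectrum, Foelner sets, compactly supported
cohomology of a subcomplex, free cellular actions on a subcomplex.

`E i` is the set of the `i`-cells of a cell complex, `bd i e` the boundary of the cell
`e : E (i + 1)`. Subcomplexes are families `A : ∀ i, Set (E i)`. `Pool.Agent.Q169.FT.cob bd i c` is
the coboundary `(δ c) (e) = c (∂ e)` of a complex-valued cochain `c`.
-/

set_option autoImplicit false

namespace Pool.Agent.V5helper82.FT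

open Pool.Agent.Q169.FT

noncomputable section

variable {E : ℕ → Type} (bd : ∀ i, E (i + 1) → (E i →₀ ℤ))

/-- `‖δ x‖²` for the coboundary `δ x` in the subcomplex `A` of the cochain `x` with finite support:
`∑ |(δ x)(e)|²`, the sum over the `(i + 1)`-cells `e` of `A`. -/
def cobSq (A : ∀ i, Set (E i)) (i : ℕ) (x : E i →₀ ℂ) : ℝ :=
  ∑' e : A (i + 1), ‖cob bd i x e‖ ^ 2

/-- `‖δ* x‖²`, where `δ* x = ∂ x = ∑ x(e) ∂e` is the boundary of `x`, considered as a chain: the sum
`∑ |(∂ x)(f)|²` over the cells `f` of dimension one less; it is `0` in degree `0`. -/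
def bdSq : ∀ i : ℕ, (E i →₀ ℂ) → ℝ
  | 0, _ => 0
  | i + 1, x => ∑' f : E i, ‖x.sum fun e a => a * ((bd i e f : ℤ) : ℂ)‖ ^ 2

/-- `0` is in the spectrum of the combinatorial Laplacian `δ* δ + δ δ*` of the subcomplex `A` in
degree `i`: for every `ε > 0` there is a non-zero cochain `x` with finite support in `A` such that
`‖δ x‖² + ‖δ* x‖² ≤ ε ‖x‖²`. -/
def ZeroInSpec (A : ∀ i, Set (E i)) (i : ℕ) : Prop :=
  ∀ ε > 0, ∃ x : E i →₀ ℂ, x ≠ 0 ∧ (∀ e ∈ x.support, e ∈ A i) ∧
    cobSq bd A i x + bdSq bd i x ≤ ε * x.sum fun _ a => ‖a‖ ^ 2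

/-- `A` has Foelner sets of vertices: for every `ε > 0` there is a nonempty finite set `S` of
vertices of `A` with `∑ (∑_(f ∈ S) [e : f])² ≤ ε |S|`, the sum over the edges `e` of `A` (or over any
finite set of edges of `A`). If every edge `e` has two ends, `∂ e = f' - f`, then this is the number
of the edges of `A` with exactly one end in `S`. -/
def HasFolnerSets (A : ∀ i, Set (E i)) : Prop :=
  ∀ ε : ℝ, 0 < ε → ∃ S : Finset (E 0), S.Nonempty ∧ (∀ f ∈ S, f ∈ A 0) ∧
    ∀ F : Finset (E 1), (∀ e ∈ F, e ∈ A 1) →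
      ∑ e ∈ F, ((∑ f ∈ S, bd 0 e f : ℤ) : ℝ) ^ 2 ≤ ε * S.card

/-- The coboundary of an integral cochain of `A` with finite support. -/
def dz (A : ∀ i, Set (E i)) (i : ℕ) (z : A i →₀ ℤ) (e : A (i + 1)) : ℤ :=
  z.sum fun f n => n * bd i e f

/-- `z` is a cocycle of `A`. -/
def IsCoA (A : ∀ i, Set (E i)) (i : ℕ) (z : A i →₀ ℤ) : Prop := ∀ e, dz bd A i z e = 0

/-- `z` is the coboundary of a cochain of `A` with finite support. -/
def IsCbA (A : ∀ i, Set (E i)) : ∀ i : ℕ, (A i →₀ ℤ) → Prop
  | 0, z => z = 0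
  | i + 1, z => ∃ y : A i →₀ ℤ, ∀ e, z e = dz bd A i y e

/-- The compactly supported cohomology group `H_c^k(A; ℤ)` is not zero. -/
def HcNonzero (A : ∀ i, Set (E i)) (k : ℕ) : Prop :=
  ∃ z : A k →₀ ℤ, IsCoA bd A k z ∧ ¬ IsCbA bd A k z

/-- The compactly supported cohomology group `H_c^k(A; ℤ)` is infinite cyclic. -/
def HcInfiniteCyclic (A : ∀ i, Set (E i)) (k : ℕ) : Prop :=
  ∃ z₀ : A k →₀ ℤ, IsCoA bd A k z₀ ∧
    ∀ z : A k →₀ ℤ, IsCoA bd A k z → ∃! n : ℤ, IsCbA bd A k (z - n • z₀)

/-- The compactly supported cohomology of `A` is infinite cyclic in degree `n` and zero in the other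
degrees; for instance if `A` is a contractible `n`-manifold. -/
def HcOnly (A : ∀ i, Set (E i)) (n : ℕ) : Prop :=
  HcInfiniteCyclic bd A n ∧ ∀ j, j ≠ n → ¬ HcNonzero bd A j

/-- A free cellular action of the group `L` on the subcomplex `A` with finitely many orbits of
cells. The action preserves the incidence numbers. -/
structure FreeAction (A : ∀ i, Set (E i)) (L : Type) [Group L] where
  /-- the action on the `i`-cells -/
  act : ∀ i, MulAction L (A i)
  /-- the action is free -/
  free : ∀ (i : ℕ) (g : L) (e : A i), g • e = e → g = 1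
  /-- the action preserves the incidence numbers -/
  inc : ∀ (i : ℕ) (g : L) (e : A (i + 1)) (f : A i),
    bd i (g • e : A (i + 1)) (g • f : A i) = bd i e f
  /-- there are finitely many orbits of `i`-cells -/
  fin : ∀ i, Finite (MulAction.orbitRel.Quotient L (A i))

/-- The Euler characteristic of `A / L`: the alternating sum of the numbers of orbits of `i`-cells,
`i ≤ n` (`n` is the dimension of the complex, or larger). -/
def FreeAction.euler {bd : ∀ i, E (i + 1) → (E i →₀ ℤ)} {A : ∀ i, Set (E i)} {L : Type} [Group L]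
    (a : FreeAction bd A L) (n : ℕ) : ℤ :=
  ∑ i ∈ Finset.range (n + 1), (-1) ^ i * (Nat.card (@MulAction.orbitRel.Quotient L (A i) _ (a.act i)) : ℤ)

end

end Pool.Agent.V5helper82.FT
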