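import Pool.Agent.V5helper82.FT.Refl
import Pool.Agent.Q111.FT.Schur

/-! # Project FT, job FACE -/

set_option autoImplicit false

open scoped ENNReal

namespace Pool.Agent.V5helper82.FT

open Pool.Agent.Q169.FT
open Pool.Agent.Q169.ZD (par)

variable {E : ℕ → Type} {bd : ∀ i, E (i + 1) → (E i →₀ ℤ)} {T : Type} {M : CoxeterMatrix T}
  {K : Type} [Group K] {cs : CoxeterSystem M K} {B C : ∀ i, Set (E i)} {mir : ∀ i, E i → Set T}
  {κ : ∀ i, E i → K → E i}

/-- the cells of the face with index `I` which are in a wall with index in `J` -/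
def DD (C : ∀ i, Set (E i)) (mir : ∀ i, E i → Set T) (I J : Set T) : ∀ i, Set (E i) :=
  fun i => {e | e ∈ C i ∧ I ⊆ mir i e ∧ (mir i e ∩ J).Nonempty}

lemma fc_sub (hR : Refl bd cs B C mir κ) (I : Set T) : IsSub bd (fc C mir I) :=
  fun i e f he hf => ⟨hR.sub i e f he.1 hf, he.2.trans (hR.face i e he.1 f hf)⟩

lemma un_sub (hR : Refl bd cs B C mir κ) (J : Set T) : IsSub bd (un C mir J) :=
  fun i e f he hf => ⟨hR.sub i e f he.1 hf,
    he.2.mono (Set.inter_subset_inter_left _ (hR.face i e he.1 f hf))⟩

lemma DD_sub (hR : Refl bd cs B C mir κ) (I J : Set T) : IsSub bd (DD C mir I J) :=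
  fun i e f he hf => ⟨hR.sub i e f he.1 hf, he.2.1.trans (hR.face i e he.1 f hf),
    he.2.2.mono (Set.inter_subset_inter_left _ (hR.face i e he.1 f hf))⟩

lemma inh_sub {A : ∀ i, Set (E i)} (h : Inh bd A) : IsSub bd A := by
  induction h with
  | base => exact fun _ _ _ _ _ => trivial
  | face cs h hR I ih => exact fc_sub hR I
  | retract h hr ih => exact hr.sub
  | inter h₁ h₂ h ih₁ ih₂ ih => exact isSub_inter ih₁ ih₂

lemma face_exs (hg : Good bd) (hR : Refl bd cs B C mir κ) (hB : ExS bd B) {I : Set T}
    (hI : I.Finite) : ExS bd (fc C mir I) ∧ ∀ J : Set T, ExS bd (DD C mir I J) := by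
  have hC : ExS bd C := by
    have h := refl_ E bd T M K cs B C mir κ hR hB ∅
    have e1 : un C mir (∅ : Set T) = fun _ => ∅ := by
      funext i
      ext e
      simp [un]
    rw [e1] at h
    exact h
  induction I, hI using Set.Finite.induction_on with
  | empty =>
    constructor
    · have e1 : fc C mir (∅ : Set T) = C := by
        funext i
        ext e
        simp [fc]
      rw [e1]
      exact hC
    · intro J
      have e1 : DD C mir (∅ : Set T) J = un C mir J := by
        funext i
        ext e
        simp [DD, un]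
      rw [e1]
      exact seq E bd hg C (un C mir J) hR.sub (un_sub hR J) (fun i e he => he.1) hC
        (refl_ E bd T M K cs B C mir κ hR hB J)
  | @insert s I _ _ ih =>
    obtain ⟨-, ih⟩ := ih
    constructor
    · have e1 : fc C mir (insert s I) = DD C mir I {s} := by
        funext i
        ext e
        simp only [fc, DD, Set.mem_ofPred_eq, Set.insert_subset_iff, Set.inter_singleton_nonempty]
        tauto
      rw [e1]
      exact ih {s}
    · intro J
      have e1 : DD C mir (insert s I) J = fun i => DD C mir I {s} i ∩ DD C mir I J i := by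
        funext i
        ext e
        simp only [DD, Set.mem_ofPred_eq, Set.insert_subset_iff, Set.inter_singleton_nonempty,
          Set.mem_inter_iff]
        tauto
      have e2 : (fun i => DD C mir I {s} i ∪ DD C mir I J i) = DD C mir I ({s} ∪ J) := by
        funext i
        ext e
        simp only [DD, Set.mem_ofPred_eq, Set.inter_singleton_nonempty, Set.mem_union,
          Set.inter_union_distrib_left, Set.union_nonempty]
        tauto
      rw [e1]
      refine mv E bd hg _ _ (DD_sub hR I {s}) (DD_sub hR I J) (ih {s}) (ih J) ?_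
      rw [e2]
      exact ih _

/-- **JOB FACE.** -/
theorem face_ : S_FACE := by
  intro E bd hg hu A hA
  induction hA with
  | base => exact hu
  | @face T M K _ cs B C mir κ h hR I ih =>
    have hT : Finite T := by
      have := hR.finite
      exact Finite.of_injective cs.simple (fun i j h => Q27.Cox.simple_inj cs h)
    exact (face_exs hg hR ih (Set.toFinite I)).1
  | @retract B A r m h hr ih =>
    exact Pool.Agent.Q111.FT.retr E bd B A r m (inh_sub h) hr ih
  | inter h₁ h₂ h ih₁ ih₂ ih =>
    exact mv E bd hg _ _ (inh_sub h₁) (inh_sub h₂) ih₁ ih₂ ih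

end Pool.Agent.V5helper82.FT
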