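import Pool.Agent.V5helper82.FT.Face
import Pool.Agent.V5helper82.FT.Defs

/-! # Compactly supported cohomology of subcomplexes: exact sequences -/

set_option autoImplicit false

namespace Pool.Agent.V5helper82.FT

open Pool.Agent.Q169.FT

noncomputable section

variable {E : ℕ → Type} (bd : ∀ i, E (i + 1) → (E i →₀ ℤ))

/-- the coboundary of an integral cochain -/
def cz (i : ℕ) (c : E i → ℤ) (e : E (i + 1)) : ℤ := (bd i e).sum fun f n => n * c f

/-- finite support -/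
def Fz {ι : Type} (c : ι → ℤ) : Prop := (Function.support c).Finite

/-- `δ δ = 0` and local finiteness -/
structure LF : Prop where
  sq : ∀ (i : ℕ) (c : E i → ℤ) (e : E (i + 2)), cz bd (i + 1) (cz bd i c) e = 0
  fin : ∀ (i : ℕ) (c : E i → ℤ), Fz c → Fz (cz bd i c)

/-- coboundaries of `(A, B)` -/
def Cbz (A B : ∀ i, Set (E i)) : ∀ i : ℕ, (E i → ℤ) → Prop
  | 0, z => ∀ e ∈ A 0, z e = 0
  | i + 1, z => ∃ y : E i → ℤ, Fz y ∧ (∀ e ∈ B i, y e = 0) ∧ ∀ e ∈ A (i + 1), z e = cz bd i y e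

/-- cocycles of `(A, B)` -/
def Coz (A B : ∀ i, Set (E i)) (i : ℕ) (z : E i → ℤ) : Prop :=
  Fz z ∧ (∀ e ∈ B i, z e = 0) ∧ ∀ e ∈ A (i + 1), cz bd i z e = 0

/-- vanishing of the cohomology -/
def Van (A B : ∀ i, Set (E i)) (i : ℕ) : Prop := ∀ z, Coz bd A B i z → Cbz bd A B i z

/-- infinite cyclic cohomology -/
def Gen (A B : ∀ i, Set (E i)) (i : ℕ) : Prop :=
  ∃ z₀, Coz bd A B i z₀ ∧ ∀ z, Coz bd A B i z → ∃! n : ℤ, Cbz bd A B i (z - n • z₀)

/-- the empty subcomplex -/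
abbrev em (E : ℕ → Type) : ∀ i, Set (E i) := fun _ => ∅

variable {bd}

lemma cz_congr {i : ℕ} {c c' : E i → ℤ} {e : E (i + 1)} (h : ∀ f, bd i e f ≠ 0 → c f = c' f) :
    cz bd i c e = cz bd i c' e := by
  refine Finset.sum_congr rfl fun f hf => ?_
  beta_reduce
  rw [h f (Finsupp.mem_support_iff.1 hf)]

lemma cz_zero' {i : ℕ} {c : E i → ℤ} {e : E (i + 1)} (h : ∀ f, bd i e f ≠ 0 → c f = 0) :
    cz bd i c e = 0 := by
  refine Finset.sum_eq_zero fun f hf => ?_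
  beta_reduce
  rw [h f (Finsupp.mem_support_iff.1 hf), mul_zero]

lemma cz_sub (i : ℕ) (c c' : E i → ℤ) (e : E (i + 1)) :
    cz bd i (c - c') e = cz bd i c e - cz bd i c' e := by
  unfold cz Finsupp.sum
  rw [← Finset.sum_sub_distrib]
  exact Finset.sum_congr rfl fun f _ => by beta_reduce; rw [Pi.sub_apply, mul_sub]

lemma cz_add (i : ℕ) (c c' : E i → ℤ) (e : E (i + 1)) :
    cz bd i (c + c') e = cz bd i c e + cz bd i c' e := by
  unfold cz Finsupp.sum
  rw [← Finset.sum_add_distrib]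
  exact Finset.sum_congr rfl fun f _ => by beta_reduce; rw [Pi.add_apply, mul_add]

lemma cz_smul (i : ℕ) (n : ℤ) (c : E i → ℤ) (e : E (i + 1)) :
    cz bd i (n • c) e = n * cz bd i c e := by
  unfold cz Finsupp.sum
  rw [Finset.mul_sum]
  exact Finset.sum_congr rfl fun f _ => by beta_reduce; rw [Pi.smul_apply, smul_eq_mul]; ring

lemma cz_ind {A : ∀ i, Set (E i)} (hA : IsSub bd A) {i : ℕ} (c : E i → ℤ) {e : E (i + 1)}
    (he : e ∈ A (i + 1)) : cz bd i ((A i).indicator c) e = cz bd i c e :=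
  cz_congr fun f hf => Set.indicator_of_mem (hA i e f he hf) c

section fz
variable {ι : Type}

lemma Fz.ind {c : ι → ℤ} (h : Fz c) (S : Set ι) : Fz (S.indicator c) :=
  Set.Finite.subset h (by rw [Set.support_indicator]; exact Set.inter_subset_right)

lemma Fz.sub {c d : ι → ℤ} (h : Fz c) (h' : Fz d) : Fz (c - d) :=
  Set.Finite.subset (h.union h') (Function.support_sub c d)

lemma Fz.add {c d : ι → ℤ} (h : Fz c) (h' : Fz d) : Fz (c + d) :=
  Set.Finite.subset (h.union h') (Function.support_add c d)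

lemma Fz.smul {c : ι → ℤ} (h : Fz c) (n : ℤ) : Fz (n • c) := by
  refine Set.Finite.subset h fun x hx => ?_
  rw [Function.mem_support, Pi.smul_apply, smul_eq_mul] at hx
  exact right_ne_zero_of_mul hx

lemma Fz.zero : Fz (0 : ι → ℤ) := by
  rw [Fz, Function.support_zero]; exact Set.finite_empty

end fz

lemma Coz.sub {A B : ∀ i, Set (E i)} {i : ℕ} {z w : E i → ℤ} (hz : Coz bd A B i z)
    (hw : Coz bd A B i w) : Coz bd A B i (z - w) :=
  ⟨hz.1.sub hw.1, fun e he => by rw [Pi.sub_apply, hz.2.1 e he, hw.2.1 e he, sub_zero],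
    fun e he => by rw [cz_sub, hz.2.2 e he, hw.2.2 e he, sub_zero]⟩

lemma Coz.smul {A B : ∀ i, Set (E i)} {i : ℕ} {z : E i → ℤ} (hz : Coz bd A B i z) (n : ℤ) :
    Coz bd A B i (n • z) :=
  ⟨hz.1.smul n, fun e he => by rw [Pi.smul_apply, hz.2.1 e he, smul_zero],
    fun e he => by rw [cz_smul, hz.2.2 e he, mul_zero]⟩

lemma Cbz.sub {A B : ∀ i, Set (E i)} {i : ℕ} {z w : E i → ℤ} (hz : Cbz bd A B i z)
    (hw : Cbz bd A B i w) : Cbz bd A B i (z - w) := by
  cases i with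
  | zero => exact fun e he => by rw [Pi.sub_apply, hz e he, hw e he, sub_zero]
  | succ i =>
    obtain ⟨y, h1, h2, h3⟩ := hz
    obtain ⟨y', h1', h2', h3'⟩ := hw
    exact ⟨y - y', h1.sub h1', fun e he => by rw [Pi.sub_apply, h2 e he, h2' e he, sub_zero],
      fun e he => by rw [Pi.sub_apply, h3 e he, h3' e he, cz_sub]⟩

lemma Cbz.smul {A B : ∀ i, Set (E i)} {i : ℕ} {z : E i → ℤ} (hz : Cbz bd A B i z) (n : ℤ) :
    Cbz bd A B i (n • z) := by
  cases i with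
  | zero => exact fun e he => by rw [Pi.smul_apply, hz e he, smul_zero]
  | succ i =>
    obtain ⟨y, h1, h2, h3⟩ := hz
    exact ⟨n • y, h1.smul n, fun e he => by rw [Pi.smul_apply, h2 e he, smul_zero],
      fun e he => by rw [Pi.smul_apply, h3 e he, cz_smul, smul_eq_mul]⟩

lemma Cbz.congr {A B : ∀ i, Set (E i)} {i : ℕ} {z w : E i → ℤ} (hz : Cbz bd A B i z)
    (h : ∀ e ∈ A i, z e = w e) : Cbz bd A B i w := by
  cases i with
  | zero => exact fun e he => by rw [← h e he, hz e he]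
  | succ i =>
    obtain ⟨y, h1, h2, h3⟩ := hz
    exact ⟨y, h1, h2, fun e he => by rw [← h e he, h3 e he]⟩

/-- restriction to a smaller subcomplex -/
lemma Cbz.res {A B A' B' : ∀ i, Set (E i)} {i : ℕ} {z : E i → ℤ} (hz : Cbz bd A B i z)
    (hA : ∀ i, A' i ⊆ A i) (hB : ∀ i, B' i ⊆ B i) : Cbz bd A' B' i z := by
  cases i with
  | zero => exact fun e he => hz e (hA 0 he)
  | succ i =>
    obtain ⟨y, h1, h2, h3⟩ := hz
    exact ⟨y, h1, fun e he => h2 e (hB i he), fun e he => h3 e (hA _ he)⟩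

/-- a coboundary is given by a closed cochain on the whole complex -/
lemma Cbz.ext (hl : LF bd) {A B : ∀ i, Set (E i)} {i : ℕ} {z : E i → ℤ} (hz : Cbz bd A B i z) :
    ∃ g : E i → ℤ, Fz g ∧ (∀ e, cz bd i g e = 0) ∧ ∀ e ∈ A i, z e = g e := by
  cases i with
  | zero => exact ⟨0, Fz.zero, fun e => cz_zero' fun _ _ => rfl, hz⟩
  | succ i =>
    obtain ⟨y, h1, -, h3⟩ := hz
    exact ⟨cz bd i y, hl.fin i y h1, fun e => hl.sq i y e, h3⟩

/-- a generator is not torsion -/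
lemma gen_torsion {A B : ∀ i, Set (E i)} {i : ℕ} {z₀ : E i → ℤ}
    (h : ∀ z, Coz bd A B i z → ∃! n : ℤ, Cbz bd A B i (z - n • z₀)) (h0 : Coz bd A B i z₀)
    {n : ℤ} (hn : Cbz bd A B i (n • z₀)) : n = 0 := by
  have h1 := h (0 • z₀) (h0.smul 0)
  have e0 : Cbz bd A B i ((0 : ℤ) • z₀ - (0 : ℤ) • z₀) := by
    have := hn.sub hn
    refine this.congr fun e _ => ?_
    simp
  have e1 : Cbz bd A B i ((0 : ℤ) • z₀ - n • z₀) := by
    have := hn.smul (-1)
    refine this.congr fun e _ => ?_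
    simp
  exact h1.unique e1 e0

section seq

variable (hl : LF bd) {A B : ∀ i, Set (E i)} (hA : IsSub bd A) (hB : IsSub bd B)
  (hBA : ∀ i, B i ⊆ A i)

include hl hA hB hBA in
lemma coz_step {i : ℕ} {z : E i → ℤ} (hz : Coz bd B (em E) i z) :
    Coz bd A B (i + 1) ((A (i + 1)).indicator (cz bd i ((B i).indicator z))) := by
  refine ⟨(hl.fin i _ (hz.1.ind _)).ind _, fun e he => ?_, fun e he => ?_⟩
  · rw [Set.indicator_of_mem (hBA _ he), cz_ind hB z he, hz.2.2 e he]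
  · rw [cz_ind hA _ he, hl.sq]

include hl hA hB hBA in
lemma van_seq {j : ℕ} (h1 : Van bd A (em E) j) (h2 : Van bd A B (j + 1)) :
    Van bd B (em E) j := by
  intro z hz
  obtain ⟨b, hb, hb0, hb1⟩ := h2 _ (coz_step hl hA hB hBA hz)
  have h3 : Coz bd A (em E) j ((B j).indicator z - b) := by
    refine ⟨(hz.1.ind _).sub hb, fun e he => he.elim, fun e he => ?_⟩
    rw [cz_sub, ← hb1 e he, Set.indicator_of_mem he, sub_self]
  refine ((h1 _ h3).res (A' := B) (B' := em E) hBA fun i => subset_rfl).congr fun e he => ?_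
  rw [Pi.sub_apply, Set.indicator_of_mem he, hb0 e he, sub_zero]

include hl hA hB hBA in
lemma gen_seq {m : ℕ} (h1 : Van bd A (em E) m) (h2 : Van bd A (em E) (m + 1))
    (h3 : Gen bd A B (m + 1)) : Gen bd B (em E) m := by
  obtain ⟨w₀, hw, hw1⟩ := h3
  obtain ⟨y, hy, -, hy1⟩ := h2 w₀ ⟨hw.1, fun e he => he.elim, hw.2.2⟩
  have hy0 : Coz bd B (em E) m y := ⟨hy, fun e he => he.elim, fun e he => by
    rw [← hy1 e (hBA _ he), hw.2.1 e he]⟩
  refine ⟨y, hy0, fun z hz => ?_⟩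
  have hst := coz_step hl hA hB hBA hz
  obtain ⟨n, hn, hu⟩ := hw1 _ hst
  refine ⟨n, ?_, fun n' hn' => hu n' ?_⟩
  · obtain ⟨v, hv, hv0, hv1⟩ := hn
    have h4 : Coz bd A (em E) m ((B m).indicator z - n • y - v) := by
      refine ⟨((hz.1.ind _).sub (hy.smul n)).sub hv, fun e he => he.elim, fun e he => ?_⟩
      have := hv1 e he
      rw [Pi.sub_apply, Pi.smul_apply, Set.indicator_of_mem he, hy1 e he, smul_eq_mul] at this
      rw [cz_sub, cz_sub, cz_smul, this, sub_self]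
    refine ((h1 _ h4).res (A' := B) (B' := em E) hBA fun i => subset_rfl).congr fun e he => ?_
    rw [Pi.sub_apply, Pi.sub_apply, Set.indicator_of_mem he, hv0 e he, sub_zero, Pi.sub_apply]
  · obtain ⟨g, hg, hg0, hg1⟩ := hn'.ext hl
    refine ⟨(B m).indicator z - n' • y - g, ((hz.1.ind _).sub (hy.smul n')).sub hg,
      fun e he => ?_, fun e he => ?_⟩
    · have := hg1 e he
      rw [Pi.sub_apply] at this
      rw [Pi.sub_apply, Pi.sub_apply, Set.indicator_of_mem he, this, sub_self]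
    · rw [cz_sub, cz_sub, cz_smul, hg0 e, sub_zero, Pi.sub_apply, Pi.smul_apply,
        Set.indicator_of_mem he, hy1 e he, smul_eq_mul]

end seq

section mv

variable (hl : LF bd) {A₁ A₂ : ∀ i, Set (E i)} (h₁ : IsSub bd A₁) (h₂ : IsSub bd A₂)

include hl h₁ h₂ in
lemma coz_mv {i : ℕ} {z : E i → ℤ} (hz : Coz bd (fun i => A₁ i ∩ A₂ i) (em E) i z) :
    (∀ e ∈ A₂ (i + 1), (A₁ (i + 1)).indicator
      (cz bd i ((A₁ i ∩ A₂ i).indicator z)) e = 0) ∧
    Coz bd (fun i => A₁ i ∪ A₂ i) (em E) (i + 1)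
      ((A₁ (i + 1)).indicator (cz bd i ((A₁ i ∩ A₂ i).indicator z))) := by
  have hF : IsSub bd (fun i => A₁ i ∩ A₂ i) := isSub_inter h₁ h₂
  have h0 : ∀ e ∈ A₂ (i + 1), (A₁ (i + 1)).indicator
      (cz bd i ((A₁ i ∩ A₂ i).indicator z)) e = 0 := by
    intro e he
    by_cases h1 : e ∈ A₁ (i + 1)
    · rw [Set.indicator_of_mem h1, cz_ind (A := fun i => A₁ i ∩ A₂ i) hF z ⟨h1, he⟩]
      exact hz.2.2 e ⟨h1, he⟩
    · rw [Set.indicator_of_notMem h1]
  refine ⟨h0, (hl.fin i _ (hz.1.ind _)).ind _, fun e he => he.elim, fun e he => ?_⟩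
  rcases he with he | he
  · rw [cz_ind h₁ _ he, hl.sq]
  · exact cz_zero' fun f hf => h0 f (h₂ _ e f he hf)

include hl h₁ h₂ in
lemma van_mv {j : ℕ} (v₁ : Van bd A₁ (em E) j) (v₂ : Van bd A₂ (em E) j)
    (v : Van bd (fun i => A₁ i ∪ A₂ i) (em E) (j + 1)) :
    Van bd (fun i => A₁ i ∩ A₂ i) (em E) j := by
  intro z hz
  obtain ⟨h0, hd⟩ := coz_mv hl h₁ h₂ hz
  obtain ⟨b, hb, -, hb1⟩ := v _ hd
  have c₂ : Cbz bd A₂ (em E) j b := v₂ b ⟨hb, fun e he => he.elim, fun e he => by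
    rw [← hb1 e (Or.inr he), h0 e he]⟩
  have c₁ : Cbz bd A₁ (em E) j ((A₁ j ∩ A₂ j).indicator z - b) := by
    refine v₁ _ ⟨(hz.1.ind _).sub hb, fun e he => he.elim, fun e he => ?_⟩
    rw [cz_sub, ← hb1 e (Or.inl he), Set.indicator_of_mem he, sub_self]
  have d₁ := c₁.res (A' := fun i => A₁ i ∩ A₂ i) (B' := em E) (fun i => Set.inter_subset_left)
    (fun i => subset_rfl)
  have d₂ := (c₂.res (A' := fun i => A₁ i ∩ A₂ i) (B' := em E) (fun i => Set.inter_subset_right)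
    (fun i => subset_rfl)).smul (-1)
  refine (d₁.sub d₂).congr fun e he => ?_
  rw [Pi.sub_apply, Pi.sub_apply, Set.indicator_of_mem he, Pi.smul_apply, smul_eq_mul]
  ring

include hl h₁ h₂ in
lemma gen_mv {m : ℕ} (v₁ : Van bd A₁ (em E) m) (v₂ : Van bd A₂ (em E) m)
    (u₁ : Van bd A₁ (em E) (m + 1)) (u₂ : Van bd A₂ (em E) (m + 1))
    (h : Gen bd (fun i => A₁ i ∪ A₂ i) (em E) (m + 1)) :
    Gen bd (fun i => A₁ i ∩ A₂ i) (em E) m := by
  classical
  obtain ⟨w₀, hw, hw1⟩ := h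
  obtain ⟨y₁, hy₁, -, e₁⟩ := u₁ w₀ ⟨hw.1, fun e he => he.elim, fun e he => hw.2.2 e (Or.inl he)⟩
  obtain ⟨y₂, hy₂, -, e₂⟩ := u₂ w₀ ⟨hw.1, fun e he => he.elim, fun e he => hw.2.2 e (Or.inr he)⟩
  have h0 : Coz bd (fun i => A₁ i ∩ A₂ i) (em E) m (y₁ - y₂) :=
    ⟨hy₁.sub hy₂, fun e he => he.elim, fun e he => by
      rw [cz_sub, ← e₁ e he.1, ← e₂ e he.2, sub_self]⟩
  refine ⟨y₁ - y₂, h0, fun z hz => ?_⟩
  obtain ⟨hd0, hd⟩ := coz_mv hl h₁ h₂ hz
  obtain ⟨n, hn, hu⟩ := hw1 _ hd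
  refine ⟨n, ?_, fun n' hn' => hu n' ?_⟩
  · obtain ⟨b, hb, -, hb1⟩ := hn
    have c₂ : Cbz bd A₂ (em E) m (b + n • y₂) := by
      refine v₂ _ ⟨hb.add (hy₂.smul n), fun e he => he.elim, fun e he => ?_⟩
      have := hb1 e (Or.inr he)
      rw [Pi.sub_apply, Pi.smul_apply, hd0 e he, smul_eq_mul, e₂ e he] at this
      rw [cz_add, cz_smul, ← this]
      ring
    have c₁ : Cbz bd A₁ (em E) m ((A₁ m ∩ A₂ m).indicator z - n • y₁ - b) := by
      refine v₁ _ ⟨((hz.1.ind _).sub (hy₁.smul n)).sub hb, fun e he => he.elim, fun e he => ?_⟩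
      have := hb1 e (Or.inl he)
      rw [Pi.sub_apply, Pi.smul_apply, Set.indicator_of_mem he, smul_eq_mul, e₁ e he] at this
      rw [cz_sub, cz_sub, cz_smul, ← this]
      ring
    have d₁ := c₁.res (A' := fun i => A₁ i ∩ A₂ i) (B' := em E) (fun i => Set.inter_subset_left)
      (fun i => subset_rfl)
    have d₂ := (c₂.res (A' := fun i => A₁ i ∩ A₂ i) (B' := em E)
      (fun i => Set.inter_subset_right) (fun i => subset_rfl)).smul (-1)
    refine (d₁.sub d₂).congr fun e he => ?_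
    rw [Pi.sub_apply, Pi.sub_apply, Pi.sub_apply, Set.indicator_of_mem he, Pi.smul_apply,
      Pi.smul_apply, Pi.add_apply, Pi.sub_apply, Pi.smul_apply, Pi.smul_apply, Pi.sub_apply,
      smul_eq_mul, smul_eq_mul, smul_eq_mul, smul_eq_mul]
    ring
  · obtain ⟨g, hg, hg0, hg1⟩ := hn'.ext hl
    set b₁ : E m → ℤ := (A₁ m ∩ A₂ m).indicator z - n' • y₁ - g with hb₁
    have hF₁ : Fz b₁ := ((hz.1.ind _).sub (hy₁.smul n')).sub hg
    have hF₂ : Fz (-n' • y₂) := hy₂.smul (-n')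
    set b : E m → ℤ := (A₁ m).indicator b₁ + (A₁ m)ᶜ.indicator (-n' • y₂) with hb
    have hbA₁ : ∀ e ∈ A₁ m, b e = b₁ e := by
      intro e he
      rw [hb, Pi.add_apply, Set.indicator_of_mem he,
        Set.indicator_of_notMem (s := (A₁ m)ᶜ) (fun h => h he), add_zero]
    have hbA₂ : ∀ e ∈ A₂ m, b e = (-n' • y₂) e := by
      intro e he
      by_cases h1 : e ∈ A₁ m
      · rw [hbA₁ e h1, hb₁, Pi.sub_apply, Pi.sub_apply, ← hg1 e ⟨h1, he⟩,
          Set.indicator_of_mem (show e ∈ A₁ m ∩ A₂ m from ⟨h1, he⟩), Pi.sub_apply, Pi.smul_apply,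
          Pi.smul_apply, Pi.smul_apply, Pi.sub_apply, smul_eq_mul, smul_eq_mul, smul_eq_mul]
        ring
      · rw [hb, Pi.add_apply, Set.indicator_of_notMem h1, Set.indicator_of_mem h1, zero_add]
    refine ⟨b, (hF₁.ind _).add (hF₂.ind _), fun e he => he.elim, fun e he => ?_⟩
    rcases he with he | he
    · rw [cz_congr (c' := b₁) fun f hf => hbA₁ f (h₁ _ e f he hf), hb₁, cz_sub, cz_sub, cz_smul,
        hg0 e, sub_zero, Pi.sub_apply, Pi.smul_apply, Set.indicator_of_mem he, e₁ e he,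
        smul_eq_mul]
    · rw [cz_congr (c' := -n' • y₂) fun f hf => hbA₂ f (h₂ _ e f he hf), cz_smul, Pi.sub_apply,
        hd0 e he, Pi.smul_apply, e₂ e he, smul_eq_mul]
      ring

omit h₁ h₂ in
lemma gen_zero_absurd {A₁ A₂ : ∀ i, Set (E i)} (v₁ : Van bd A₁ (em E) 0)
    (v₂ : Van bd A₂ (em E) 0) (h : Gen bd (fun i => A₁ i ∪ A₂ i) (em E) 0) : False := by
  obtain ⟨w₀, hw, hw1⟩ := h
  have c₁ := v₁ w₀ ⟨hw.1, fun e he => he.elim, fun e he => hw.2.2 e (Or.inl he)⟩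
  have c₂ := v₂ w₀ ⟨hw.1, fun e he => he.elim, fun e he => hw.2.2 e (Or.inr he)⟩
  have := gen_torsion hw1 hw (n := 1) (fun e he => by
    rw [one_smul]
    rcases he with he | he
    · exact c₁ e he
    · exact c₂ e he)
  exact one_ne_zero this

end mv

end

end Pool.Agent.V5helper82.FT
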