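import Pool.Agent.V5helper82.FT.Sub
import Pool.Agent.Q169.FT.PD
import Pool.Agent.Q111.FT.ConvB
import Pool.Agent.Q111.FT.Good
import Pool.Agent.Q146.FT.Amen
import Pool.Agent.Q241.ZD.Ltwo
import Pool.Agent.TH38.ZT.Trace
import Pool.Agent.N453.ZS.Tor

/-! # Project FT: the final theorems -/

set_option autoImplicit false

namespace Pool.Agent.V5helper82.FT

open Pool.Agent.Q169.FT
open Pool.Agent.H919R4.ZS (FinRes toRed van_of_homology infinite_of_van)
open Pool.Agent.TH38.ZT (ExAt exAt_iff)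
open Pool.Agent.TH38.CX (AcyclicGComplex)
open Pool.Agent.Q169.FT.PD

noncomputable section

variable {N : Type} [Group N]

/-- the boundaries of the cells of `U` -/
def bdU (U : AcyclicGComplex N) : ∀ i, U.E (i + 1) → (U.E i →₀ ℤ) :=
  fun i e => U.bd i (Finsupp.single e 1)

lemma bl_bdU (U : AcyclicGComplex N) (i : ℕ) (x : U.E (i + 1) →₀ ℤ) :
    bl (bdU U) i x = U.bd i x := by
  induction x using Finsupp.induction_linear with
  | zero => simp
  | add x y hx hy => rw [map_add, map_add, hx, hy]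
  | single e n =>
    rw [bl_single, bdU, ← map_zsmul, Finsupp.smul_single, smul_eq_mul, mul_one]

lemma aug_eq {E : ℕ → Type} (x : E 0 →₀ ℤ) : aug x = x.sum fun _ r => r := by
  rw [aug, Finsupp.linearCombination_apply]
  exact Finsupp.sum_congr fun _ _ => by rw [smul_eq_mul, mul_one]

lemma cc_bdU (U : AcyclicGComplex N) : CC (bdU U) where
  dd i x := by
    rw [bl_bdU, bl_bdU]
    exact (U.exact_succ i _).2 ⟨x, rfl⟩
  ad x := by
    rw [bl_bdU, aug_eq]
    exact (U.exact_zero _).2 ⟨x, rfl⟩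

lemma mem_univ {E : ℕ → Type} (i : ℕ) (x : E i →₀ ℤ) : x ∈ su (fun i => (Set.univ : Set (E i))) i :=
  fun _ _ => trivial

lemma acyS_univ (U : AcyclicGComplex N) : AcyS (bdU U) (fun _ => Set.univ) := by
  constructor
  · intro x _ h
    rw [aug_eq] at h
    obtain ⟨y, hy⟩ := (U.exact_zero x).1 h
    exact ⟨y, mem_univ 1 y, by rw [bl_bdU, hy]⟩
  · intro i x _ h
    rw [bl_bdU] at h
    obtain ⟨y, hy⟩ := (U.exact_succ i x).1 h
    exact ⟨y, mem_univ _ y, by rw [bl_bdU, hy]⟩

section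

variable (U : AcyclicGComplex N) (hU : ∀ i (n : N) (e : U.E i), n • e = e → n = 1)
  (hfin : ∀ i, Finite (MulAction.orbitRel.Quotient N (U.E i)))

include hU hfin in
lemma good_bdU : Good (bdU U) := by
  choose rep hrep using fun i => exists_rep (hfin i)
  exact Pool.Agent.Q111.FT.good N U hU _ rep hrep

include hU hfin in
/-- if all the homology vanishes, then inherited subcomplexes are exact -/
theorem exs_of_van (X : FinRes N) (hX : ∀ i, ¬ Nontrivial (X.homology (toRed N) i))
    {A : ∀ i, Set (U.E i)} (hA : Inh (bdU U) A) : ExS (bdU U) A := by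
  choose rep hrep using fun i => exists_rep (hfin i)
  have hex : ∀ i, ExAt X (toRed N) i := fun i =>
    (exAt_iff X (toRed N) i).2 (not_nontrivial_iff_subsingleton.1 (hX i))
  have h1 := Pool.Agent.Q241.ZD.ltwo res N U hU _ rep hrep X hex
  have h2 : ExS (bdU U) (fun _ => Set.univ) := by
    refine ⟨fun c hc _ h e _ => ?_, fun i c hc _ h => ?_⟩
    · rw [h1.1 c hc fun e => h e trivial]
      rfl
    · obtain ⟨c', hc', h3⟩ := h1.2 i c hc fun e => h e trivial
      exact ⟨c', hc', fun e he => he.elim, fun e _ => h3 e⟩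
  exact face_ U.E (bdU U) (good_bdU U hU hfin) h2 A hA

include hU hfin in
theorem main_spec (X : FinRes N) {A : ∀ i, Set (U.E i)} (hA : Inh (bdU U) A)
    (h : ∃ i, ZeroInSpec (bdU U) A i) : ∃ i, Nontrivial (X.homology (toRed N) i) := by
  by_contra hcon
  push Not at hcon
  obtain ⟨i, hi⟩ := h
  exact not_zeroInSpec (good_bdU U hU hfin) (inh_sub hA)
    (exs_of_van U hU hfin X (fun i => by simpa using hcon i) hA) i hi

open scoped Classical in
lemma zeroInSpec_of_folner {E : ℕ → Type} {bd : ∀ i, E (i + 1) → (E i →₀ ℤ)}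
    {A : ∀ i, Set (E i)} (h : HasFolnerSets bd A) : ZeroInSpec bd A 0 := by
  intro ε hε
  obtain ⟨S, hS, hSA, hF⟩ := h ε hε
  let x : E 0 →₀ ℂ := Finsupp.onFinset S (fun f => if f ∈ S then 1 else 0) (fun f hf => by
    by_contra h
    exact hf (if_neg h))
  have hx : ∀ f, x f = if f ∈ S then 1 else 0 := fun f => rfl
  have hsupp : x.support = S := by
    ext f
    rw [Finsupp.mem_support_iff, hx]
    split_ifs with h
    · simpa using h
    · simpa using h
  refine ⟨x, ?_, fun e he => hSA e (hsupp ▸ he), ?_⟩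
  · obtain ⟨f, hf⟩ := hS
    intro h0
    have := DFunLike.congr_fun h0 f
    rw [hx, if_pos hf, Finsupp.zero_apply] at this
    exact one_ne_zero this
  · have h1 : (x.sum fun _ a => ‖a‖ ^ 2) = S.card := by
      rw [Finsupp.sum, hsupp]
      rw [Finset.sum_congr rfl fun f hf => by rw [hx, if_pos hf]]
      simp
    rw [h1]
    unfold bdSq cobSq
    rw [add_zero]
    have h2 : ∀ e : A 1, ‖cob bd 0 x e‖ ^ 2 = ((∑ f ∈ S, bd 0 e f : ℤ) : ℝ) ^ 2 := by
      intro e
      have h3 : cob bd 0 x e = ((∑ f ∈ S, bd 0 e f : ℤ) : ℂ) := by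
        unfold cob Finsupp.sum
        push_cast
        have h4 : ∀ f ∈ (bd 0 e).support, ((bd 0 e f : ℤ) : ℂ) * x f =
            if f ∈ S then ((bd 0 e f : ℤ) : ℂ) else 0 := by
          intro f _
          rw [hx]
          split_ifs <;> simp
        rw [Finset.sum_congr rfl h4, Finset.sum_ite_mem]
        refine Finset.sum_subset Finset.inter_subset_right fun f hfS hf => ?_
        have h5 : f ∉ (bd 0 e).support := fun h6 => hf (Finset.mem_inter.2 ⟨h6, hfS⟩)
        rw [Finsupp.notMem_support_iff.1 h5]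
        simp
      rw [h3, Complex.norm_intCast, sq_abs]
    rw [tsum_congr h2]
    refine Real.tsum_le_of_sum_le (fun _ => sq_nonneg _) fun F => ?_
    have h6 := hF (F.map ⟨Subtype.val, Subtype.val_injective⟩) (fun e he => by
      obtain ⟨a, -, rfl⟩ := Finset.mem_map.1 he
      exact a.2)
    rw [Finset.sum_map] at h6
    exact h6

/-- a class in degree at most two -/
theorem hc_le_two {L : Type} [Group L] (V : AcyclicGComplex L)
    (hf : ∀ i (n : L) (e : V.E i), n • e = e → n = 1) (c : ℕ → ℕ) (rep : ∀ i, Fin (c i) → V.E i)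
    (hrep : ∀ i (e : V.E i), ∃! a, e ∈ MulAction.orbit L (rep i a)) (d : ℕ) (hd : d ≤ 2)
    (z₀ : V.E d →₀ ℤ) (hz : IsCo V d z₀) (hnb : ¬ IsCb V d z₀) (X' : FinRes L) :
    ∃ i, Nontrivial (X'.homology (toRed L) i) := by
  obtain ⟨X, φ, hφ, hb⟩ := res L V hf c rep hrep
  by_contra hcon
  push Not at hcon
  have hs : ∀ i, Subsingleton (X.homology (toRed L) i) := fun i =>
    (exAt_iff X (toRed L) i).1 (Pool.Agent.TH38.ZT.ex_indep X' X (toRed L) i
      ((exAt_iff X' (toRed L) i).2 (not_nontrivial_iff_subsingleton.1 (by simpa using hcon i))))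
  have hN : Infinite L := infinite_of_van X (van_of_homology X (hs 0) (hs 1) (hs 2))
  have hG : Infinite (L ⧸ Subgroup.zpowers (1 : L)) := by
    rw [Subgroup.zpowers_one_eq_bot]
    exact Infinite.of_injective (fun g : L => (QuotientGroup.mk g : L ⧸ (⊥ : Subgroup L)))
      (fun a b hab => by
        have := QuotientGroup.eq.1 hab
        rw [Subgroup.mem_bot] at this
        exact (inv_mul_eq_one.1 this))
  apply hnb
  have hcl : dl φ d z₀ = 0 := by
    ext e
    rw [dl_apply V φ hb]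
    exact hz e
  have h1 := exact_coset X 1 hG hs d hd (P φ (Subgroup.zpowers 1) d z₀) (by
    rw [cobd_P, hcl, map_zero])
  have hker : ∀ z : V.E d →₀ ℤ, P φ (Subgroup.zpowers (1 : L)) d z = 0 → z = 0 := by
    intro z hz
    obtain ⟨w, hw⟩ := ker_P φ hφ (1 : L) d z
    rw [hz, map_zero, sub_zero, T_one, sub_self] at hw
    exact hw
  cases d with
  | zero =>
    change P φ (Subgroup.zpowers (1 : L)) 0 z₀ ∈ (⊥ : AddSubgroup _) at h1
    rw [AddSubgroup.mem_bot] at h1
    exact hker z₀ h1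
  | succ d =>
    obtain ⟨x, hx⟩ := h1
    rw [isCb_iff V φ hb]
    refine ⟨Q φ (Subgroup.zpowers (1 : L)) d x, ?_⟩
    rw [← sub_eq_zero]
    apply hker
    rw [map_sub, ← cobd_P, P_Q, hx, sub_self]

omit hU hfin in
lemma trans_aux {A : ∀ i, Set (U.E i)} (hA : IsSub (bdU U) A) (i : ℕ) (e : A (i + 1)) :
    U.bd i (Finsupp.single (e : U.E (i + 1)) 1) =
      (bA (bdU U) A i (Finsupp.single e 1)).mapDomain Subtype.val := by
  have h1 := xt_bA (bd := bdU U) hA i (Finsupp.single e 1)
  rw [xt_single, bl_bdU] at h1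
  exact h1.symm

include hU hfin in
/-- groups acting on inherited subcomplexes -/
theorem main_group (X : FinRes N) {A : ∀ i, Set (U.E i)} (hA : Inh (bdU U) A)
    (hne : (A 0).Nonempty) {L : Type} [Group L] (a : FreeAction (bdU U) A L) :
    Nonempty (FinRes L) ∧
    ((∃ (Y : FinRes L) (i : ℕ), Nontrivial (Y.homology (toRed L) i)) ∨
      (∃ k ≤ 2, HcNonzero (bdU U) A k) ∨ HcInfiniteCyclic (bdU U) A 3 ∨ a.euler U.len ≠ 0 →
      ∃ i, Nontrivial (X.homology (toRed N) i)) := by
  let V : AcyclicGComplex L := gc (cc_bdU U) (inh_sub hA)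
    (inh_acy (cc_bdU U) (acyS_univ U) hA) U.len U.isEmpty hne a
  have hV : ∀ i (g : L) (e : V.E i), g • e = e → g = 1 := a.free
  choose rep hrep using fun i => @exists_rep L _ (A i) (a.act i) (a.fin i)
  let rep' : ∀ i, Fin (Nat.card (@MulAction.orbitRel.Quotient L (A i) _ (a.act i))) → V.E i := rep
  have hrep' : ∀ i (e : V.E i), ∃! b, e ∈ MulAction.orbit L (rep' i b) := hrep
  obtain ⟨Y, ψ, ⟨hlen, hn⟩, -⟩ := res_full L V hV _ rep' hrep'
  refine ⟨⟨Y⟩, fun h => ?_⟩
  by_contra hcon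
  push Not at hcon
  have hE := exs_of_van U hU hfin X (fun i => by simpa using hcon i) hA
  have h4 : Pool.Agent.Q169.ZD.L2Ex V.E (fun i => V.bd i) := by
    refine Pool.Agent.Q111.FT.trans N L U V (fun i => Subtype.val)
      (fun i => Subtype.val_injective) (fun i e => trans_aux U (inh_sub hA) i e) ?_
    · have h1 : (fun i => Set.range (Subtype.val : A i → U.E i)) = A := by
        funext i
        exact Subtype.range_val
      change ExS (bdU U) (fun i => Set.range (Subtype.val : A i → U.E i))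
      rw [h1]
      exact hE
  have h5 : ∀ (Y : FinRes L) (i : ℕ), ExAt Y (toRed L) i :=
    Pool.Agent.Q111.FT.conv res Pool.Agent.Q111.FT.gap Pool.Agent.Q111.FT.neu L V hV _ rep'
      hrep' h4
  have key : ∀ (Y : FinRes L) (i : ℕ), ¬ Nontrivial (Y.homology (toRed L) i) := fun Y i =>
    not_nontrivial_iff_subsingleton.2 ((exAt_iff Y (toRed L) i).1 (h5 Y i))
  have hdz : ∀ i (z : A i →₀ ℤ) (e : V.E (i + 1)),
      ((V.bd i (Finsupp.single e 1)).sum fun f n => n * z f) = dz (bdU U) A i z e :=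
    fun i z e => sum_dz i z e
  have hco : ∀ i (z : A i →₀ ℤ), IsCo V i z ↔ IsCoA (bdU U) A i z := fun i z =>
    forall_congr' fun e => ⟨fun h => (hdz i z e).symm.trans h, fun h => (hdz i z e).trans h⟩
  have hcb : ∀ i (z : A i →₀ ℤ), IsCb V i z ↔ IsCbA (bdU U) A i z := by
    intro i z
    cases i with
    | zero => exact Iff.rfl
    | succ i => exact exists_congr fun y => forall_congr' fun e =>
        ⟨fun h => h.trans (hdz i y e), fun h => h.trans (hdz i y e).symm⟩
  rcases h with ⟨Y', i, h⟩ | ⟨k, hk, z, hz1, hz2⟩ | ⟨z₀, hz0, hz1⟩ | h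
  · exact key Y' i h
  · obtain ⟨i, hi⟩ := hc_le_two V hV _ rep' hrep' k hk z ((hco k z).2 hz1)
      (fun h => hz2 ((hcb k z).1 h)) Y
    exact key Y i hi
  · have hH : HcZ V 3 := by
      refine ⟨z₀, (hco 3 z₀).2 hz0, fun z hz => ?_⟩
      obtain ⟨n, h1, h2⟩ := hz1 z ((hco 3 z).1 hz)
      exact ⟨n, (hcb 3 _).2 h1, fun m hm => h2 m ((hcb 3 _).1 hm)⟩
    have htf : ∀ g : L, IsOfFinOrder g → g = 1 := fun g hg =>
      Pool.Agent.N453.ZS.torsionfree Y g hg.orderOf_pos
    obtain ⟨i, hi⟩ := pd (pda res) (pdb res) Pool.Agent.Q146.FT.amen V hV htf _ rep' hrep' 3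
      le_rfl hH Y
    exact key Y i hi
  · have h6 : Pool.Agent.TH38.ZT.euler Y = a.euler U.len := by
      rw [Pool.Agent.TH38.ZT.euler, FreeAction.euler, hlen]
      exact Finset.sum_congr rfl fun i _ => by rw [hn]
    obtain ⟨i, -, hi⟩ := Pool.Agent.TH38.ZT.exists_of_euler Y (by rw [h6]; exact h)
    exact key Y i hi

end

end

end Pool.Agent.V5helper82.FT
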