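import Pool.Agent.V5helper82.FT.HcR
import Pool.Agent.V5helper82.FT.Main

/-! # Compactly supported cohomology of fixed sets of reflection groups -/

set_option autoImplicit false

namespace Pool.Agent.V5helper82.FT

open Pool.Agent.Q169.FT
open Pool.Agent.Q169.ZD (par)
open Pool.Agent.TH38.CX (AcyclicGComplex)

noncomputable section

variable {E : ℕ → Type} {bd : ∀ i, E (i + 1) → (E i →₀ ℤ)}
  {T : Type} {M : CoxeterMatrix T} {K : Type} [Group K] {cs : CoxeterSystem M K}
  {B C : ∀ i, Set (E i)} {mir : ∀ i, E i → Set T} {κ : ∀ i, E i → K → E i}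

/-- infinite cyclic in degree `n`, zero in the other degrees -/
def Pd (bd : ∀ i, E (i + 1) → (E i →₀ ℤ)) (A : ∀ i, Set (E i)) (n : ℕ) : Prop :=
  Gen bd A (em E) n ∧ ∀ j, j ≠ n → Van bd A (em E) j

section walls

variable (hl : LF bd) (hR : Refl bd cs B C mir κ) {n : ℕ} (hB : Pd bd B n)
  (hW : ∀ e ∈ C n, mir n e = ∅)

include hR hB hW in
lemma van_rel (J : Set T) (hJ : J ≠ Set.univ) (j : ℕ) : Van bd C (un C mir J) j := by
  by_cases hj : j = n
  · subst hj
    obtain ⟨⟨z₀, hz, hz1⟩, -⟩ := hB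
    exact van_top hz hz1 hR hW hJ
  · exact van_refl hR J (hB.2 j hj)

include hR hB hW in
lemma gen_rel : Gen bd C (un C mir Set.univ) n := by
  haveI := hR.finite
  letI : Fintype K := Fintype.ofFinite K
  obtain ⟨⟨z₀, hz, hz1⟩, -⟩ := hB
  exact ⟨_, gen_top hz hz1 hR hW⟩

include hR hB hW in
lemma van_C [Nonempty T] (j : ℕ) : Van bd C (em E) j := by
  have h := van_rel hR hB hW (∅ : Set T) (Set.empty_ne_univ) j
  have e1 : un C mir (∅ : Set T) = em E := by
    funext i
    ext e
    simp [un, em]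
  rwa [e1] at h

include hl hR hB hW in
lemma van_un [Nonempty T] (J : Set T) (hJ : J ≠ Set.univ) (j : ℕ) :
    Van bd (un C mir J) (em E) j :=
  van_seq hl hR.sub (un_sub hR J) (fun i e he => he.1) (van_C hR hB hW j)
    (van_rel hR hB hW J hJ (j + 1))

include hl hR hB hW in
lemma pd_un [Nonempty T] : ∃ m, n = m + 1 ∧ Pd bd (un C mir (Set.univ : Set T)) m := by
  have hg := gen_rel hR hB hW
  cases n with
  | zero =>
    exfalso
    obtain ⟨c₀, h0, h1⟩ := hg
    have h2 := van_C hR hB hW 0 c₀ ⟨h0.1, fun e he => he.elim, h0.2.2⟩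
    exact one_ne_zero (gen_torsion h1 h0 (n := 1) fun e he => by rw [one_smul, h2 e he])
  | succ m =>
    refine ⟨m, rfl, gen_seq hl hR.sub (un_sub hR _) (fun i e he => he.1) (van_C hR hB hW m)
      (van_C hR hB hW (m + 1)) hg, fun j hj => ?_⟩
    exact van_seq hl hR.sub (un_sub hR _) (fun i e he => he.1) (van_C hR hB hW j)
      (van_refl hR _ (hB.2 (j + 1) (by omega)))

include hl hR hB hW in
lemma dd_ind {I : Set T} (hI : I.Finite) : ∀ J : Set T, J.Nonempty → Disjoint I J →
    (I ∪ J ≠ Set.univ → ∀ j, Van bd (DD C mir I J) (em E) j) ∧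
    (I ∪ J = Set.univ → ∃ m, n = m + I.ncard + 1 ∧ Pd bd (DD C mir I J) m) := by
  induction I, hI using Set.Finite.induction_on with
  | empty =>
    intro J hJ _
    haveI : Nonempty T := ⟨hJ.some⟩
    have e1 : DD C mir (∅ : Set T) J = un C mir J := by
      funext i
      ext e
      simp [DD, un]
    rw [e1, Set.empty_union]
    refine ⟨fun h => van_un hl hR hB hW J h, fun h => ?_⟩
    obtain ⟨m, hm, h1⟩ := pd_un hl hR hB hW
    rw [h, Set.ncard_empty]
    exact ⟨m, by omega, h1⟩
  | @insert s I hs hIf ih =>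
    intro J hJ hd
    have hsJ : s ∉ J := fun h => Set.disjoint_left.1 hd (Set.mem_insert s I) h
    have hIJ : Disjoint I J := hd.mono_left (Set.subset_insert s I)
    have hIs : Disjoint I {s} := Set.disjoint_singleton_right.2 hs
    have e1 : DD C mir (insert s I) J = fun i => DD C mir I {s} i ∩ DD C mir I J i := by
      funext i
      ext e
      simp only [DD, Set.mem_ofPred_eq, Set.insert_subset_iff, Set.inter_singleton_nonempty,
        Set.mem_inter_iff]
      tauto
    have e2 : (fun i => DD C mir I {s} i ∪ DD C mir I J i) = DD C mir I ({s} ∪ J) := by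
      funext i
      ext e
      simp only [DD, Set.mem_ofPred_eq, Set.inter_singleton_nonempty, Set.mem_union,
        Set.inter_union_distrib_left, Set.union_nonempty]
      tauto
    obtain ⟨t, ht⟩ := hJ
    have n1 : I ∪ {s} ≠ Set.univ := by
      intro h
      have h1 : t ∈ I ∪ {s} := h ▸ trivial
      rcases h1 with h1 | h1
      · exact Set.disjoint_left.1 hIJ h1 ht
      · exact hsJ (Set.mem_singleton_iff.1 h1 ▸ ht)
    have n2 : I ∪ J ≠ Set.univ := by
      intro h
      have h1 : s ∈ I ∪ J := h ▸ trivial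
      rcases h1 with h1 | h1
      · exact hs h1
      · exact hsJ h1
    have v1 := (ih {s} ⟨s, rfl⟩ hIs).1 n1
    have v2 := (ih J ⟨t, ht⟩ hIJ).1 n2
    obtain ⟨v3, v4⟩ := ih ({s} ∪ J) ⟨s, Or.inl rfl⟩ (Set.disjoint_union_right.2 ⟨hIs, hIJ⟩)
    have e3 : I ∪ ({s} ∪ J) = insert s I ∪ J := by
      ext x
      simp only [Set.mem_union, Set.mem_singleton_iff, Set.mem_insert_iff]
      tauto
    rw [e3, ← e2] at v3
    rw [e3, ← e2] at v4
    rw [e1]
    refine ⟨fun h j => van_mv hl (DD_sub hR I {s}) (DD_sub hR I J) (v1 j) (v2 j) (v3 h (j + 1)),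
      fun h => ?_⟩
    obtain ⟨m, hm, h1, h2⟩ := v4 h
    rw [Set.ncard_insert_of_notMem hs hIf]
    cases m with
    | zero => exact (gen_zero_absurd (v1 0) (v2 0) h1).elim
    | succ m =>
      refine ⟨m, by omega, gen_mv hl (DD_sub hR I {s}) (DD_sub hR I J) (v1 m) (v2 m) (v1 (m + 1))
        (v2 (m + 1)) h1, fun j hj => ?_⟩
      exact van_mv hl (DD_sub hR I {s}) (DD_sub hR I J) (v1 j) (v2 j) (h2 (j + 1) (by omega))

include hl hR hB hW in
/-- **The fixed set of a finite reflection group of rank `r` on a complex whose compactly supported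
cohomology is infinite cyclic in degree `n` and zero in the other degrees has the same property with
`n - r` in place of `n`.** -/
theorem pd_fix [Nonempty T] :
    ∃ m, m + Nat.card T = n ∧ Pd bd (fc C mir (Set.univ : Set T)) m := by
  have hT : Finite T := by
    have := hR.finite
    exact Finite.of_injective cs.simple (fun i j h => Q27.Cox.simple_inj cs h)
  obtain ⟨s⟩ := ‹Nonempty T›
  have hf : (Set.univ \ {s} : Set T).Finite := Set.toFinite _
  have h1 := (dd_ind hl hR hB hW hf {s} ⟨s, rfl⟩ disjoint_sdiff_self_left).2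
    (by rw [Set.sdiff_union_self, Set.union_eq_left]; exact Set.subset_univ _)
  obtain ⟨m, hm, h2⟩ := h1
  have e1 : fc C mir (Set.univ : Set T) = DD C mir (Set.univ \ {s}) {s} := by
    funext i
    ext e
    simp only [fc, DD, Set.mem_ofPred_eq, Set.inter_singleton_nonempty]
    constructor
    · rintro ⟨ha, hb⟩
      exact ⟨ha, Set.sdiff_subset.trans hb, hb trivial⟩
    · rintro ⟨ha, hb, hc⟩
      refine ⟨ha, fun t _ => ?_⟩
      by_cases ht : t = s
      · rw [ht]; exact hc
      · exact hb ⟨trivial, ht⟩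
  rw [e1]
  refine ⟨m, ?_, h2⟩
  have h3 : (Set.univ \ {s} : Set T).ncard + 1 = Nat.card T := by
    rw [Set.ncard_sdiff_singleton_add_one (Set.mem_univ s) Set.finite_univ, Set.ncard_univ]
  omega

end walls

/-! ### Conversions -/

section conv

variable {A : ∀ i, Set (E i)}

lemma dz_eq (i : ℕ) (z : A i →₀ ℤ) (e : A (i + 1)) :
    dz bd A i z e = cz bd i (xt A i z) e := by
  have h1 : cz bd i (xt A i z) e = (xt A i z).sum fun f n => n * bd i e f := sum_symm _ _
  rw [h1]
  change _ = (Finsupp.mapDomain Subtype.val z).sum fun f n => n * bd i e f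
  rw [Finsupp.sum_mapDomain_index (fun f => by simp) (fun f a b => by ring)]
  rfl

lemma fz_xt (i : ℕ) (z : A i →₀ ℤ) : Fz (xt A i z) := by
  rw [Fz, Finsupp.fun_support_eq]
  exact Finset.finite_toSet _

lemma xt_apply (i : ℕ) (z : A i →₀ ℤ) (e : A i) : xt A i z e = z e :=
  Finsupp.mapDomain_apply Subtype.val_injective z e

lemma coz_iff (i : ℕ) (z : A i →₀ ℤ) : IsCoA bd A i z ↔ Coz bd A (em E) i (xt A i z) := by
  constructor
  · intro h
    exact ⟨fz_xt i z, fun e he => he.elim, fun e he => (dz_eq i z ⟨e, he⟩).symm.trans (h ⟨e, he⟩)⟩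
  · intro h e
    exact (dz_eq i z e).trans (h.2.2 e e.2)

/-- restriction of a finitely supported function -/
lemma exists_xt (i : ℕ) {c : E i → ℤ} (hc : Fz c) : ∃ z : A i →₀ ℤ, ∀ e ∈ A i, xt A i z e = c e := by
  refine ⟨rs A i (Finsupp.ofSupportFinite c hc), fun e he => ?_⟩
  rw [xt_apply i _ ⟨e, he⟩, rs_apply]
  rfl

lemma cbz_iff (hA : IsSub bd A) (i : ℕ) (z : A i →₀ ℤ) :
    IsCbA bd A i z ↔ Cbz bd A (em E) i (xt A i z) := by
  cases i with
  | zero =>
    constructor
    · intro h e he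
      have h' : z = 0 := h
      rw [h', map_zero]
      rfl
    · intro h
      change z = 0
      ext e
      rw [← xt_apply, h e e.2]
      rfl
  | succ i =>
    constructor
    · rintro ⟨y, hy⟩
      exact ⟨xt A i y, fz_xt i y, fun e he => he.elim, fun e he => by
        rw [xt_apply _ _ ⟨e, he⟩, hy, dz_eq]⟩
    · rintro ⟨y, hy, -, hy1⟩
      obtain ⟨y', hy'⟩ := exists_xt (A := A) i hy
      refine ⟨y', fun e => ?_⟩
      rw [dz_eq, ← xt_apply, hy1 e e.2]
      exact cz_congr fun f hf => (hy' f (hA i e f e.2 hf)).symm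

lemma Coz.congr {A' : ∀ i, Set (E i)} (hA : IsSub bd A) {i : ℕ} {z w : E i → ℤ}
    (hz : Coz bd A (em E) i z) (hw : Fz w) (h : ∀ e ∈ A i, z e = w e) : Coz bd A (em E) i w :=
  ⟨hw, fun e he => he.elim, fun e he => by
    rw [← hz.2.2 e he]
    exact cz_congr fun f hf => (h f (hA i e f he hf)).symm⟩

lemma van_iff (hA : IsSub bd A) (i : ℕ) : Van bd A (em E) i ↔ ¬ HcNonzero bd A i := by
  constructor
  · rintro h ⟨z, h1, h2⟩
    exact h2 ((cbz_iff hA i z).2 (h _ ((coz_iff i z).1 h1)))
  · intro h c hc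
    obtain ⟨z, hz⟩ := exists_xt (A := A) i hc.1
    by_contra hcb
    refine h ⟨z, (coz_iff i z).2 ?_, fun h1 => hcb (((cbz_iff hA i z).1 h1).congr hz)⟩
    exact ⟨fz_xt i z, fun e he => he.elim, fun e he => by
      rw [← hc.2.2 e he]
      exact cz_congr fun f hf => hz f (hA i e f he hf)⟩

lemma gen_iff (hA : IsSub bd A) (i : ℕ) : Gen bd A (em E) i ↔ HcInfiniteCyclic bd A i := by
  have key : ∀ (z z₀ : A i →₀ ℤ) (n : ℤ), IsCbA bd A i (z - n • z₀) ↔
      Cbz bd A (em E) i ((xt A i z : E i → ℤ) - n • (xt A i z₀ : E i → ℤ)) := by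
    intro z z₀ n
    rw [cbz_iff hA, map_sub, map_zsmul]
    rfl
  constructor
  · rintro ⟨c₀, h0, h1⟩
    obtain ⟨z₀, hz₀⟩ := exists_xt (A := A) i h0.1
    have h2 : Coz bd A (em E) i (xt A i z₀) := ⟨fz_xt i z₀, fun e he => he.elim, fun e he => by
      rw [← h0.2.2 e he]
      exact cz_congr fun f hf => hz₀ f (hA i e f he hf)⟩
    refine ⟨z₀, (coz_iff i z₀).2 h2, fun z hz => ?_⟩
    obtain ⟨n, hn, hu⟩ := h1 _ ((coz_iff i z).1 hz)
    refine ⟨n, (key _ _ _).2 (hn.congr fun e he => ?_), fun n' hn' => hu n'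
      (((key _ _ _).1 hn').congr fun e he => ?_)⟩
    · rw [Pi.sub_apply, Pi.smul_apply, Pi.sub_apply, Pi.smul_apply, hz₀ e he]
    · rw [Pi.sub_apply, Pi.smul_apply, Pi.sub_apply, Pi.smul_apply, hz₀ e he]
  · rintro ⟨z₀, h0, h1⟩
    refine ⟨xt A i z₀, (coz_iff i z₀).1 h0, fun c hc => ?_⟩
    obtain ⟨z, hz⟩ := exists_xt (A := A) i hc.1
    have h2 : Coz bd A (em E) i (xt A i z) := ⟨fz_xt i z, fun e he => he.elim, fun e he => by
      rw [← hc.2.2 e he]
      exact cz_congr fun f hf => hz f (hA i e f he hf)⟩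
    obtain ⟨n, hn, hu⟩ := h1 z ((coz_iff i z).2 h2)
    refine ⟨n, ((key _ _ _).1 hn).congr fun e he => ?_, fun n' hn' => hu n' ((key _ _ _).2
      (hn'.congr fun e he => ?_))⟩
    · rw [Pi.sub_apply, Pi.smul_apply, Pi.sub_apply, Pi.smul_apply, hz e he]
    · rw [Pi.sub_apply, Pi.smul_apply, Pi.sub_apply, Pi.smul_apply, hz e he]

end conv

/-! ### Local finiteness -/

section lf

variable {N : Type} [Group N] (U : AcyclicGComplex N)
  (hU : ∀ i (n : N) (e : U.E i), n • e = e → n = 1)
  (hfin : ∀ i, Finite (MulAction.orbitRel.Quotient N (U.E i)))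

lemma cz_eq_ev {E : ℕ → Type} {bd : ∀ i, E (i + 1) → (E i →₀ ℤ)} (i : ℕ) (c : E i → ℤ)
    (x : E (i + 1) →₀ ℤ) :
    Finsupp.linearCombination ℤ (cz bd i c) x = Finsupp.linearCombination ℤ c (bl bd i x) := by
  induction x using Finsupp.induction_linear with
  | zero => simp
  | add x y hx hy => rw [map_add, map_add, map_add, hx, hy]
  | single e n =>
    rw [bl_single, map_smul, Finsupp.linearCombination_single, Finsupp.linearCombination_apply]
    rfl

include hU hfin in
lemma lf_bdU : LF (bdU U) := by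
  constructor
  · intro i c e
    have h1 : cz (bdU U) (i + 1) (cz (bdU U) i c) e = Finsupp.linearCombination ℤ
        (cz (bdU U) i c) (bl (bdU U) (i + 1) (Finsupp.single e 1)) := by
      rw [← cz_eq_ev, Finsupp.linearCombination_single, one_smul]
    rw [h1, cz_eq_ev, (cc_bdU U).dd, map_zero]
  · intro i c hc
    choose rep hrep using fun i => exists_rep (hfin i)
    have hor : ∀ (j : ℕ) (e : U.E j), ∃ a, ∃ (n : N), e = n • rep j a := by
      intro j e
      obtain ⟨a, ⟨n, hn⟩, -⟩ := hrep j e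
      exact ⟨a, n, hn.symm⟩
    have hcol : ∀ f : U.E i, {e : U.E (i + 1) | bdU U i e f ≠ 0}.Finite := by
      intro f
      have h1 : {e : U.E (i + 1) | bdU U i e f ≠ 0} ⊆
          ⋃ a, ⋃ g ∈ (U.bd i (Finsupp.single (rep (i + 1) a) 1)).support,
            (fun k : N => k • rep (i + 1) a) '' {k : N | k⁻¹ • f = g} := by
        intro e he
        obtain ⟨a, n, rfl⟩ := hor (i + 1) e
        simp only [Set.mem_iUnion]
        refine ⟨a, n⁻¹ • f, ?_, n, rfl, rfl⟩
        rw [Finsupp.mem_support_iff, ← Pool.Agent.Q111.FT.bd_coeff U i n, smul_inv_smul]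
        exact he
      refine Set.Finite.subset (Set.finite_iUnion fun a => ?_) h1
      refine Set.Finite.biUnion (Finset.finite_toSet _) fun g _ => ?_
      apply Set.Finite.image
      apply Set.Subsingleton.finite
      intro k hk k' hk'
      simp only [Set.mem_ofPred_eq] at hk hk'
      have h2 : (k' * k⁻¹) • f = f := by
        rw [mul_smul, hk, ← hk', smul_inv_smul]
      have h3 := hU i _ f h2
      rw [mul_inv_eq_one] at h3
      exact h3.symm
    have h2 : (⋃ f ∈ Function.support c, {e : U.E (i + 1) | bdU U i e f ≠ 0}).Finite :=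
      Set.Finite.biUnion hc fun f _ => hcol f
    refine h2.subset fun e he => ?_
    rw [Function.mem_support] at he
    by_contra hcon
    apply he
    refine cz_zero' fun f hf => ?_
    by_contra hf0
    exact hcon (Set.mem_iUnion₂.2 ⟨f, hf0, hf⟩)

end lf

end

end Pool.Agent.V5helper82.FT
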