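import Pool.Agent.V5helper82.FT.HcA
import Pool.Agent.V5helper82.FT.Acy

/-! # Compactly supported cohomology of the chamber relative to walls -/

set_option autoImplicit false

namespace Pool.Agent.V5helper82.FT

open Pool.Agent.Q169.FT
open Pool.Agent.Q169.ZD (par)

noncomputable section

variable {E : ℕ → Type} {bd : ∀ i, E (i + 1) → (E i →₀ ℤ)}
  {T : Type} {M : CoxeterMatrix T} {K : Type} [Group K] {cs : CoxeterSystem M K}
  {B C : ∀ i, Set (E i)} {mir : ∀ i, E i → Set T} {κ : ∀ i, E i → K → E i}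

open scoped Classical

/-- extension to the translates of the chamber by the elements of `P` -/
def Pz (C : ∀ i, Set (E i)) (κ : ∀ i, E i → K → E i) (P : Set K) (i : ℕ) (c : E i → ℤ) :
    E i → ℤ := fun x => if h : ∃ e ∈ C i, ∃ w ∈ P, κ i e w = x then c h.choose else 0

lemma Pz_apply (hR : Refl bd cs B C mir κ) {P : Set K} {i : ℕ} {c : E i → ℤ}
    (hP : ∀ e ∈ C i, c e ≠ 0 → ∀ w ∈ P, ∀ u ∈ par cs (mir i e), w * u ∈ P)
    {e : E i} (he : e ∈ C i) (w : K) :
    Pz C κ P i c (κ i e w) = if w ∈ P then c e else 0 := by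
  unfold Pz
  by_cases hw : w ∈ P
  · have h : ∃ e' ∈ C i, ∃ w' ∈ P, κ i e' w' = κ i e w := ⟨e, he, w, hw, rfl⟩
    rw [dif_pos h, if_pos hw]
    obtain ⟨h1, w', -, h2⟩ := h.choose_spec
    rw [((hR.inj i _ h1 e he w' w).1 h2).1]
  · rw [if_neg hw]
    split_ifs with h
    · obtain ⟨h1, w', hw', h2⟩ := h.choose_spec
      obtain ⟨h3, h4⟩ := (hR.inj i _ h1 e he w' w).1 h2
      by_contra h5
      apply hw
      have h6 := hP _ h1 h5 w' hw' _ h4
      rwa [mul_inv_cancel_left] at h6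
    · rfl

lemma hP_par {J : Set T} {i : ℕ} {c : E i → ℤ} (h0 : ∀ e ∈ un C mir J i, c e = 0) :
    ∀ e ∈ C i, c e ≠ 0 → ∀ w ∈ (par cs Jᶜ : Set K), ∀ u ∈ par cs (mir i e),
      w * u ∈ (par cs Jᶜ : Set K) := by
  intro e he hc w hw u hu
  have h5 : mir i e ⊆ Jᶜ := fun t ht htJ => hc (h0 e ⟨he, t, ht, htJ⟩)
  exact mul_mem hw (par_mono cs h5 hu)

lemma hP_one {v : K} {i : ℕ} {c : E i → ℤ} (h0 : ∀ e ∈ un C mir (Set.univ : Set T) i, c e = 0) :
    ∀ e ∈ C i, c e ≠ 0 → ∀ w ∈ ({v} : Set K), ∀ u ∈ par cs (mir i e), w * u ∈ ({v} : Set K) := by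
  intro e he hc w hw u hu
  have h5 : mir i e = ∅ := by
    rw [Set.eq_empty_iff_forall_notMem]
    exact fun t ht => hc (h0 e ⟨he, t, ht, trivial⟩)
  rw [h5, par, Set.image_empty, Subgroup.closure_empty, Subgroup.mem_bot] at hu
  rw [hu, mul_one]
  exact hw

lemma Pz_fz (hR : Refl bd cs B C mir κ) (P : Set K) {i : ℕ} {c : E i → ℤ} (hc : Fz c) :
    Fz (Pz C κ P i c) := by
  haveI := hR.finite
  have h1 : (⋃ w : K, (fun e => κ i e w) '' Function.support c).Finite :=
    Set.finite_iUnion fun w => Set.Finite.image _ hc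
  refine h1.subset fun x hx => ?_
  rw [Function.mem_support] at hx
  unfold Pz at hx
  split_ifs at hx with h
  · obtain ⟨h1, w', -, h2⟩ := h.choose_spec
    exact Set.mem_iUnion.2 ⟨w', _, hx, h2⟩
  · exact (hx rfl).elim

lemma cz_kappa (hR : Refl bd cs B C mir κ) {i : ℕ} (c : E i → ℤ) {e : E (i + 1)}
    (he : e ∈ C (i + 1)) (w : K) :
    cz bd i c (κ (i + 1) e w) = cz bd i (fun f => c (κ i f w)) e := by
  unfold cz
  rw [hR.bd_smul i e he w, Finsupp.sum_mapDomain_index]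
  · intro f; simp
  · intro f a b; ring

lemma cz_Pz (hR : Refl bd cs B C mir κ) {P : Set K} {i : ℕ} {c : E i → ℤ}
    (hP : ∀ e ∈ C i, c e ≠ 0 → ∀ w ∈ P, ∀ u ∈ par cs (mir i e), w * u ∈ P)
    {e : E (i + 1)} (he : e ∈ C (i + 1)) (w : K) :
    cz bd i (Pz C κ P i c) (κ (i + 1) e w) = if w ∈ P then cz bd i c e else 0 := by
  rw [cz_kappa hR _ he]
  by_cases hw : w ∈ P
  · rw [if_pos hw]
    exact cz_congr fun f hf => by rw [Pz_apply hR hP (hR.sub i e f he hf), if_pos hw]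
  · rw [if_neg hw]
    exact cz_zero' fun f hf => by rw [Pz_apply hR hP (hR.sub i e f he hf), if_neg hw]

lemma coz_Pz (hR : Refl bd cs B C mir κ) {P : Set K} {A' : ∀ i, Set (E i)} {i : ℕ} {c : E i → ℤ}
    (hP : ∀ e ∈ C i, c e ≠ 0 → ∀ w ∈ P, ∀ u ∈ par cs (mir i e), w * u ∈ P)
    (hc : Coz bd C A' i c) : Coz bd B (em E) i (Pz C κ P i c) := by
  refine ⟨Pz_fz hR P hc.1, fun e he => he.elim, fun x hx => ?_⟩
  obtain ⟨e, he, w, rfl⟩ := hR.surj _ x hx
  rw [cz_Pz hR hP he, hc.2.2 e he, ite_self]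

/-- coboundaries relative to a union of walls extend -/
lemma cbz_Pz (hR : Refl bd cs B C mir κ) {P : Set K} {J : Set T} {i : ℕ} {c : E i → ℤ}
    (h0 : ∀ e ∈ un C mir J i, c e = 0)
    (hP : ∀ (j : ℕ) (c : E j → ℤ), (∀ e ∈ un C mir J j, c e = 0) →
      ∀ e ∈ C j, c e ≠ 0 → ∀ w ∈ P, ∀ u ∈ par cs (mir j e), w * u ∈ P)
    (hc : Cbz bd C (un C mir J) i c) : Cbz bd B (em E) i (Pz C κ P i c) := by
  cases i with
  | zero =>
    intro x hx
    obtain ⟨e, he, w, rfl⟩ := hR.surj _ x hx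
    rw [Pz_apply hR (hP _ c h0) he, hc e he, ite_self]
  | succ i =>
    obtain ⟨y, hy, hy0, hy1⟩ := hc
    refine ⟨Pz C κ P i y, Pz_fz hR P hy, fun e he => he.elim, fun x hx => ?_⟩
    obtain ⟨e, he, w, rfl⟩ := hR.surj _ x hx
    rw [Pz_apply hR (hP _ c h0) he, cz_Pz hR (hP _ y hy0) he, hy1 e he]

/-- antisymmetrisation over `K_J` -/
def Az (cs : CoxeterSystem M K) [Fintype K] (C : ∀ i, Set (E i))
    (κ : ∀ i, E i → K → E i) (J : Set T) (i : ℕ) (b : E i → ℤ) : E i → ℤ := fun e =>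
  ∑ u : K, (if u ∈ par cs J then sz cs u else 0) • (C i).indicator (fun e => b (κ i e u)) e

section fin
variable [Fintype K]

lemma Az_apply (J : Set T) {i : ℕ} (b : E i → ℤ) {e : E i} (he : e ∈ C i) :
    Az cs C κ J i b e = ∑ u : K, (if u ∈ par cs J then sz cs u else 0) • b (κ i e u) :=
  Finset.sum_congr rfl fun u _ => by rw [Set.indicator_of_mem he]

lemma fz_pull (hR : Refl bd cs B C mir κ) {i : ℕ} {b : E i → ℤ} (hb : Fz b) (w : K) :
    Fz ((C i).indicator fun e => b (κ i e w)) := by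
  have h1 : Set.InjOn (fun e => κ i e w) (C i) := fun e he e' he' h =>
    ((hR.inj i e he e' he' w w).1 h).1
  have h2 : Function.support ((C i).indicator fun e => b (κ i e w)) ⊆ C i := by
    rw [Set.support_indicator]
    exact Set.inter_subset_left
  refine Set.Finite.of_finite_image (f := fun e => κ i e w) (hb.subset ?_) (h1.mono h2)
  rintro _ ⟨e, he, rfl⟩
  have h3 := h2 he
  rw [Function.mem_support, Set.indicator_of_mem h3] at he
  exact he

lemma Az_fz (hR : Refl bd cs B C mir κ) (J : Set T) {i : ℕ} {b : E i → ℤ} (hb : Fz b) :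
    Fz (Az cs C κ J i b) := by
  have h1 : (⋃ w : K, Function.support ((C i).indicator fun e => b (κ i e w))).Finite :=
    Set.finite_iUnion fun w => fz_pull hR hb w
  refine h1.subset fun x hx => ?_
  rw [Function.mem_support] at hx
  unfold Az at hx
  obtain ⟨u, -, hu⟩ := Finset.exists_ne_zero_of_sum_ne_zero hx
  exact Set.mem_iUnion.2 ⟨u, right_ne_zero_of_smul hu⟩

lemma Az_zero (hR : Refl bd cs B C mir κ) (J : Set T) {i : ℕ} (b : E i → ℤ)
    {e : E i} (he : e ∈ un C mir J i) : Az cs C κ J i b e = 0 := by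
  obtain ⟨he, s, hs, hsJ⟩ := he
  rw [Az_apply J b he]
  refine sum_anti J hsJ (fun u => b (κ i e u)) (fun u => ?_) (fun a h => by omega)
  congr 1
  refine ((hR.inj i e he e he _ _).2 ⟨rfl, ?_⟩).symm
  rw [inv_mul_cancel_left]
  exact Subgroup.subset_closure ⟨s, hs, rfl⟩

lemma cz_Az (hR : Refl bd cs B C mir κ) (J : Set T) {i : ℕ} (b : E i → ℤ) {e : E (i + 1)}
    (he : e ∈ C (i + 1)) : cz bd i (Az cs C κ J i b) e =
      ∑ u : K, (if u ∈ par cs J then sz cs u else 0) • cz bd i b (κ (i + 1) e u) := by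
  have h4 : cz bd i (Az cs C κ J i b) e = cz bd i (fun f =>
      ∑ u : K, (if u ∈ par cs J then sz cs u else 0) • b (κ i f u)) e :=
    cz_congr fun f hf => Az_apply J b (hR.sub i e f he hf)
  rw [h4]
  simp only [cz_kappa hR b he, smul_eq_mul]
  unfold cz Finsupp.sum
  simp only [Finset.mul_sum]
  rw [Finset.sum_comm]
  exact Finset.sum_congr rfl fun u _ => Finset.sum_congr rfl fun f _ => by ring

lemma coz_Az (hR : Refl bd cs B C mir κ) (J : Set T) {i : ℕ} {b : E i → ℤ}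
    (hb : Coz bd B (em E) i b) : Coz bd C (un C mir J) i (Az cs C κ J i b) := by
  refine ⟨Az_fz hR J hb.1, fun e he => Az_zero hR J b he, fun e he => ?_⟩
  rw [cz_Az hR J b he]
  exact Finset.sum_eq_zero fun u _ => by rw [hb.2.2 _ (hR.mem _ e he u), smul_zero]

lemma cbz_Az (hR : Refl bd cs B C mir κ) (J : Set T) {i : ℕ} {b : E i → ℤ}
    (hb : Cbz bd B (em E) i b) : Cbz bd C (un C mir J) i (Az cs C κ J i b) := by
  cases i with
  | zero =>
    intro e he
    rw [Az_apply J b he]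
    exact Finset.sum_eq_zero fun u _ => by rw [hb _ (hR.mem _ e he u), smul_zero]
  | succ i =>
    obtain ⟨y, hy, -, hy1⟩ := hb
    refine ⟨Az cs C κ J i y, Az_fz hR J hy, fun e he => Az_zero hR J y he, fun e he => ?_⟩
    rw [cz_Az hR J y he, Az_apply J b he]
    exact Finset.sum_congr rfl fun u _ => by rw [hy1 _ (hR.mem _ e he u)]

lemma Az_sub_smul (J : Set T) {i : ℕ} (b b' : E i → ℤ) (n : ℤ) {e : E i} (he : e ∈ C i) :
    Az cs C κ J i (b - n • b') e = Az cs C κ J i b e - n * Az cs C κ J i b' e := by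
  rw [Az_apply J _ he, Az_apply J _ he, Az_apply J _ he, Finset.mul_sum, ← Finset.sum_sub_distrib]
  refine Finset.sum_congr rfl fun u _ => ?_
  rw [Pi.sub_apply, Pi.smul_apply, smul_eq_mul, smul_eq_mul, smul_eq_mul, smul_eq_mul]
  ring

/-- `Ψ_J Φ_J = 1` -/
lemma Az_Pz (hR : Refl bd cs B C mir κ) (J : Set T) {i : ℕ} {c : E i → ℤ}
    (h0 : ∀ e ∈ un C mir J i, c e = 0) {e : E i} (he : e ∈ C i) :
    Az cs C κ J i (Pz C κ (par cs Jᶜ : Set K) i c) e = c e := by
  rw [Az_apply J _ he, Finset.sum_eq_single (1 : K)]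
  · rw [Pz_apply hR (hP_par h0) he, if_pos (one_mem _),
      if_pos (show (1 : K) ∈ (par cs Jᶜ : Set K) from one_mem _), sz,
      cs.length_one, pow_zero, one_smul]
  · intro u _ hu
    rw [Pz_apply hR (hP_par h0) he]
    by_cases h6 : u ∈ par cs J
    · rw [if_neg (show u ∉ (par cs Jᶜ : Set K) from fun h7 => hu (par_inter cs J h6 h7)),
        smul_zero]
    · rw [if_neg h6, zero_smul]
  · intro h; exact absurd (Finset.mem_univ _) h

/-- `Ψ Φ_J = 0` -/
lemma Az_Pz_zero (hR : Refl bd cs B C mir κ) {J : Set T} (hJ : J ≠ Set.univ) {i : ℕ} {c : E i → ℤ}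
    (h0 : ∀ e ∈ un C mir J i, c e = 0) {e : E i} (he : e ∈ C i) :
    Az cs C κ Set.univ i (Pz C κ (par cs Jᶜ : Set K) i c) e = 0 := by
  obtain ⟨s, hs⟩ := (Set.ne_univ_iff_exists_notMem J).1 hJ
  rw [Az_apply _ _ he]
  have h1 : ∀ u : K, (if u ∈ par cs (Set.univ : Set T) then sz cs u else 0) •
      Pz C κ (par cs Jᶜ : Set K) i c (κ i e u) = (if u ∈ par cs Jᶜ then sz cs u else 0) • c e := by
    intro u
    rw [Pz_apply hR (hP_par h0) he]
    have hu : u ∈ par cs (Set.univ : Set T) := by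
      rw [par, Set.image_univ, cs.subgroup_closure_range_simple]
      trivial
    rw [if_pos hu]
    by_cases h6 : u ∈ par cs Jᶜ
    · rw [if_pos h6, if_pos (show u ∈ (par cs Jᶜ : Set K) from h6)]
    · rw [if_neg h6, if_neg (show u ∉ (par cs Jᶜ : Set K) from h6), smul_zero, zero_smul]
  rw [Finset.sum_congr rfl fun u _ => h1 u]
  exact sum_anti (J := Jᶜ) (s := s) hs (fun _ => c e) (fun _ => rfl) (fun a h => by omega)

end fin

/-- vanishing for the chamber relative to walls -/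
lemma van_refl (hR : Refl bd cs B C mir κ) (J : Set T) {j : ℕ} (h : Van bd B (em E) j) :
    Van bd C (un C mir J) j := by
  haveI := hR.finite
  letI : Fintype K := Fintype.ofFinite K
  intro z hz
  refine (cbz_Az hR J (h _ (coz_Pz hR (hP_par hz.2.1) hz))).congr fun e he => ?_
  exact Az_Pz hR J hz.2.1 he

lemma Cbz.sum {A A' : ∀ i, Set (E i)} {i : ℕ} {ι : Type} (s : Finset ι) (f : ι → E i → ℤ)
    (h : ∀ a ∈ s, Cbz bd A A' i (f a)) : Cbz bd A A' i (∑ a ∈ s, f a) := by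
  induction s using Finset.induction_on with
  | empty =>
    rw [Finset.sum_empty]
    cases i with
    | zero => exact fun _ _ => rfl
    | succ i => exact ⟨0, Fz.zero, fun _ _ => rfl, fun e _ => (cz_zero' fun _ _ => rfl).symm⟩
  | insert a s ha ih =>
    rw [Finset.sum_insert ha]
    have h1 := h a (Finset.mem_insert_self a s)
    have h2 := ih fun b hb => h b (Finset.mem_insert_of_mem hb)
    refine (h1.sub (h2.smul (-1))).congr fun e _ => ?_
    rw [Pi.sub_apply, Pi.smul_apply, Pi.add_apply, smul_eq_mul]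
    ring

section top

variable {n : ℕ} {z₀ : E n → ℤ} (hz : Coz bd B (em E) n z₀)
  (hz1 : ∀ z, Coz bd B (em E) n z → ∃! m : ℤ, Cbz bd B (em E) n (z - m • z₀))
  (hR : Refl bd cs B C mir κ) (hW : ∀ e ∈ C n, mir n e = ∅)

include hW in
omit [Group K] in
lemma un_top (J : Set T) (e : E n) : e ∉ un C mir J n := by
  rintro ⟨h1, s, h2, -⟩
  rw [hW e h1] at h2
  exact h2

include hz hz1 hR hW in
lemma not_van_top : ¬ Van bd C (un C mir (Set.univ : Set T)) n := by
  intro hv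
  haveI := hR.finite
  letI : Fintype K := Fintype.ofFinite K
  let c : K → E n → ℤ := fun v => (C n).indicator fun e => z₀ (κ n e v)
  have hc : ∀ v, Coz bd C (un C mir (Set.univ : Set T)) n (c v) := by
    intro v
    refine ⟨fz_pull hR hz.1 v, fun e he => (un_top hW _ e he).elim, fun e he => ?_⟩
    rw [← hz.2.2 _ (hR.mem _ e he v), cz_kappa hR _ he]
    exact cz_congr fun f hf => Set.indicator_of_mem (hR.sub n e f he hf) _
  have h1 : ∀ v, Cbz bd B (em E) n (Pz C κ ({v} : Set K) n (c v)) := fun v =>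
    cbz_Pz hR (hc v).2.1 (fun j c h0 => hP_one h0) (hv _ (hc v))
  have h2 := Cbz.sum Finset.univ _ fun v _ => h1 v
  have h3 : Cbz bd B (em E) n ((1 : ℤ) • z₀) := by
    refine h2.congr fun x hx => ?_
    obtain ⟨e, he, w, rfl⟩ := hR.surj _ x hx
    rw [one_smul, Finset.sum_apply, Finset.sum_eq_single w]
    · rw [Pz_apply hR (hP_one (hc w).2.1) he, if_pos (Set.mem_singleton w)]
      exact Set.indicator_of_mem he _
    · intro v _ hv
      rw [Pz_apply hR (hP_one (hc v).2.1) he, if_neg fun h => hv (Set.mem_singleton_iff.1 h).symm]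
    · intro h; exact absurd (Finset.mem_univ _) h
  exact one_ne_zero (gen_torsion hz1 hz h3)

include hz hz1 hR hW in
lemma gen_top [Fintype K] : Coz bd C (un C mir (Set.univ : Set T)) n (Az cs C κ Set.univ n z₀) ∧
    ∀ z, Coz bd C (un C mir (Set.univ : Set T)) n z → ∃! m : ℤ,
      Cbz bd C (un C mir (Set.univ : Set T)) n (z - m • Az cs C κ Set.univ n z₀) := by
  have h0 := coz_Az hR Set.univ hz
  set c₀ := Az cs C κ Set.univ n z₀ with hc₀
  have hex : ∀ z, Coz bd C (un C mir (Set.univ : Set T)) n z → ∃ m : ℤ,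
      Cbz bd C (un C mir (Set.univ : Set T)) n (z - m • c₀) := by
    intro z hzz
    obtain ⟨m, hm, -⟩ := hz1 _ (coz_Pz hR (hP_par hzz.2.1) hzz)
    refine ⟨m, (cbz_Az hR Set.univ hm).congr fun e he => ?_⟩
    beta_reduce
    rw [Az_sub_smul _ _ _ _ he, Az_Pz hR _ hzz.2.1 he, Pi.sub_apply, Pi.smul_apply, smul_eq_mul]
  have htor : ∀ m : ℤ, Cbz bd C (un C mir (Set.univ : Set T)) n (m • c₀) → m = 0 := by
    intro m hm
    by_contra hm0
    obtain ⟨t, ht, -⟩ := hz1 _ (coz_Pz hR (hP_par h0.2.1) h0)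
    have hm' := cbz_Pz (P := (par cs (Set.univ : Set T)ᶜ : Set K)) hR (h0.smul m).2.1
      (fun j c h0 => hP_par h0) hm
    have h1 : Cbz bd B (em E) n ((m * t) • z₀) := by
      refine (hm'.sub (ht.smul m)).congr fun x hx => ?_
      obtain ⟨e, he, w, rfl⟩ := hR.surj _ x hx
      rw [Pi.sub_apply, Pi.smul_apply, Pi.sub_apply, Pi.smul_apply, Pi.smul_apply,
        Pz_apply hR (hP_par (h0.smul m).2.1) he, Pz_apply hR (hP_par h0.2.1) he, smul_eq_mul,
        smul_eq_mul, smul_eq_mul, Pi.smul_apply, smul_eq_mul]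
      split_ifs <;> ring
    have h2 : t = 0 := by
      rcases mul_eq_zero.1 (gen_torsion hz1 hz h1) with h | h
      · exact absurd h hm0
      · exact h
    rw [h2] at ht
    have h3 : Cbz bd C (un C mir (Set.univ : Set T)) n c₀ := by
      refine (cbz_Az hR Set.univ ht).congr fun e he => ?_
      rw [Az_sub_smul _ _ _ _ he, Az_Pz hR _ h0.2.1 he, zero_mul, sub_zero]
    apply not_van_top hz hz1 hR hW
    intro z hzz
    obtain ⟨m', hm'⟩ := hex z hzz
    refine (hm'.sub (h3.smul (-m'))).congr fun e _ => ?_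
    rw [Pi.sub_apply, Pi.sub_apply, Pi.smul_apply, Pi.smul_apply, smul_eq_mul, smul_eq_mul]
    ring
  refine ⟨h0, fun z hzz => ?_⟩
  obtain ⟨m, hm⟩ := hex z hzz
  refine ⟨m, hm, fun m' hm' => ?_⟩
  have h4 := htor (m' - m) ((hm.sub hm').congr fun e _ => by
    rw [Pi.sub_apply, Pi.sub_apply, Pi.sub_apply, Pi.smul_apply, Pi.smul_apply, Pi.smul_apply,
      smul_eq_mul, smul_eq_mul, smul_eq_mul]
    ring)
  omega

include hz hz1 hR hW in
lemma van_top {J : Set T} (hJ : J ≠ Set.univ) : Van bd C (un C mir J) n := by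
  haveI := hR.finite
  letI : Fintype K := Fintype.ofFinite K
  obtain ⟨h0, h1⟩ := gen_top hz hz1 hR hW
  set c₀ := Az cs C κ Set.univ n z₀ with hc₀
  have hrel : ∀ z, Coz bd C (un C mir J) n z → Coz bd C (un C mir (Set.univ : Set T)) n z :=
    fun z hzz => ⟨hzz.1, fun e he => (un_top hW _ e he).elim, hzz.2.2⟩
  have h0' : Coz bd C (un C mir J) n c₀ :=
    ⟨h0.1, fun e he => (un_top hW _ e he).elim, h0.2.2⟩
  have hun : ∀ i, un C mir J i ⊆ un C mir Set.univ i := fun i e he =>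
    ⟨he.1, he.2.mono (Set.inter_subset_inter_right _ (Set.subset_univ J))⟩
  have h2 : Cbz bd C (un C mir J) n c₀ := by
    obtain ⟨t, ht, -⟩ := hz1 _ (coz_Pz hR (hP_par h0'.2.1) h0')
    have h3 := cbz_Az hR Set.univ ht
    have h4 : t = 0 := by
      have h5 : Cbz bd C (un C mir (Set.univ : Set T)) n ((-t) • c₀) := by
        refine h3.congr fun e he => ?_
        rw [Az_sub_smul _ _ _ _ he, Az_Pz_zero hR hJ h0'.2.1 he, Pi.smul_apply, smul_eq_mul]
        ring
      have := gen_torsion h1 h0 h5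
      omega
    rw [h4] at ht
    refine (cbz_Az hR J ht).congr fun e he => ?_
    rw [Az_sub_smul _ _ _ _ he, Az_Pz hR _ h0'.2.1 he, zero_mul, sub_zero]
  intro z hzz
  obtain ⟨m, hm, -⟩ := h1 z (hrel z hzz)
  have hm' := hm.res (A' := C) (B' := un C mir J) (fun i => subset_rfl) hun
  refine (hm'.sub (h2.smul (-m))).congr fun e _ => ?_
  rw [Pi.sub_apply, Pi.sub_apply, Pi.smul_apply, Pi.smul_apply, smul_eq_mul, smul_eq_mul]
  ring

end top

end

end Pool.Agent.V5helper82.FT
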