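import Pool.Agent.V5helper82.FT.SeqMv
import Pool.Agent.Q27.Cox.Par

/-! # Project FT, job REFL -/

set_option autoImplicit false

open scoped ENNReal

namespace Pool.Agent.V5helper82.FT

open Pool.Agent.Q169.FT
open Pool.Agent.Q169.ZD (par)

section

open scoped Classical

variable {ι κ' : Type}

/-- square summability in terms of sums of squares -/
lemma memlp_iff {c : ι → ℂ} : Memℓp c 2 ↔ Summable fun i => ‖c i‖ ^ 2 := by
  have h2 : 0 < (2 : ℝ≥0∞).toReal := by norm_num
  rw [memℓp_gen_iff h2]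
  have h4 : (2 : ENNReal).toReal = ((2 : ℕ) : ℝ) := by norm_num
  simp only [h4, Real.rpow_natCast]

/-- pull back along a map which is injective on `S` -/
lemma mem_pull {S : Set ι} {g : ι → κ'} (hg : Set.InjOn g S) {b : κ' → ℂ} (hb : Memℓp b 2) :
    Memℓp (S.indicator fun e => b (g e)) 2 := by
  rw [memlp_iff] at hb ⊢
  have h1 : Summable fun e : S => ‖b (g e)‖ ^ 2 :=
    hb.comp_injective (i := fun e : S => g e) (fun a b h => Subtype.ext (hg a.2 b.2 h))
  have h2 := (summable_subtype_iff_indicator (f := fun e => ‖b (g e)‖ ^ 2)).1 h1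
  refine h2.congr fun e => ?_
  by_cases he : e ∈ S
  · rw [Set.indicator_of_mem he, Set.indicator_of_mem he]
  · rw [Set.indicator_of_notMem he, Set.indicator_of_notMem he]; simp

/-- push forward along finitely many maps which are injective on `S` -/
lemma mem_push {K : Type} [Fintype K] {S : Set ι} {g : K → ι → κ'}
    (hg : ∀ w, Set.InjOn (g w) S) {c : ι → ℂ} (hc : Memℓp c 2) {d : κ' → ℂ}
    (hd : ∀ x, d x ≠ 0 → ∃ w, ∃ e ∈ S, g w e = x ∧ d x = c e) : Memℓp d 2 := by
  rw [memlp_iff] at hc ⊢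
  have h1 : ∀ w : K, Summable fun x => ∑' e : S, if g w e = x then ‖c e‖ ^ 2 else 0 := by
    intro w
    have hinj : Function.Injective fun e : S => g w e := fun a b h => Subtype.ext (hg w a.2 b.2 h)
    have h2 : Summable ((fun x => ∑' e : S, if g w e = x then ‖c e‖ ^ 2 else 0) ∘
        fun e : S => g w e) := by
      refine (hc.comp_injective (i := fun e : S => (e : ι)) Subtype.val_injective).congr fun e => ?_
      change ‖c e‖ ^ 2 = ∑' e' : S, if g w e' = g w e then ‖c e'‖ ^ 2 else 0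
      rw [tsum_eq_single e]
      · rw [if_pos rfl]
      · intro e' he'
        rw [if_neg fun h => he' (hinj h)]
    refine (hinj.summable_iff ?_).1 h2
    intro x hx
    have h3 : ∀ e : S, (if g w e = x then ‖c e‖ ^ 2 else 0) = (0 : ℝ) := fun e =>
      if_neg fun h => hx ⟨e, h⟩
    rw [tsum_congr h3]
    exact tsum_zero
  refine Summable.of_nonneg_of_le (fun _ => sq_nonneg _) (fun x => ?_)
    (summable_sum (s := Finset.univ) fun w _ => h1 w)
  have h0 : ∀ w x, 0 ≤ ∑' e : S, if g w e = x then ‖c e‖ ^ 2 else 0 := fun w x =>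
    tsum_nonneg fun e => by split_ifs <;> positivity
  by_cases hx : d x = 0
  · rw [hx, norm_zero, zero_pow two_ne_zero]
    exact Finset.sum_nonneg fun w _ => h0 w x
  · obtain ⟨w, e, he, hge, hde⟩ := hd x hx
    refine le_trans ?_ (Finset.single_le_sum (f := fun w => ∑' e : S, if g w e = x then
      ‖c e‖ ^ 2 else 0) (fun w _ => h0 w x) (Finset.mem_univ w))
    rw [hde, tsum_eq_single (⟨e, he⟩ : S)]
    · rw [if_pos hge]
    · intro e' he'
      rw [if_neg]
      intro h
      exact he' (Subtype.ext (hg w e'.2 he (h.trans hge.symm)))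

end

section cox

variable {B : Type} {M : CoxeterMatrix B} {W : Type} [Group W] (cs : CoxeterSystem M W)

lemma par_inter (J : Set B) {w : W} (h1 : w ∈ par cs J) (h2 : w ∈ par cs Jᶜ) : w = 1 := by
  have e1 : Q27.Cox.supp cs w ⊆ J := Q27.Cox.mem_P_iff.1 h1
  have e2 : Q27.Cox.supp cs w ⊆ Jᶜ := Q27.Cox.mem_P_iff.1 h2
  have e3 : w ∈ Q27.Cox.P cs (∅ : Set B) :=
    Q27.Cox.mem_P_iff.2 fun i hi => (e2 hi (e1 hi)).elim
  rw [Q27.Cox.P, Set.image_empty, Subgroup.closure_empty] at e3
  exact Subgroup.mem_bot.1 e3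

lemma par_mono {J K : Set B} (h : J ⊆ K) : par cs J ≤ par cs K :=
  Subgroup.closure_mono (Set.image_mono h)

/-- the sign -/
noncomputable def sg (w : W) : ℂ := (-1) ^ cs.length w

lemma sg_mul_simple (w : W) (s : B) : sg cs (w * cs.simple s) = - sg cs w := by
  unfold sg
  rcases cs.length_mul_simple w s with h | h
  · rw [h, pow_succ]; ring
  · rw [← h, pow_succ]; ring

lemma sg_one : sg cs (1 : W) = 1 := by
  unfold sg; rw [cs.length_one, pow_zero]

end cox

section refl

variable {E : ℕ → Type} {bd : ∀ i, E (i + 1) → (E i →₀ ℤ)} {T : Type} {M : CoxeterMatrix T}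
  {K : Type} [Group K] {cs : CoxeterSystem M K} {B C : ∀ i, Set (E i)} {mir : ∀ i, E i → Set T}
  {κ : ∀ i, E i → K → E i}

open scoped Classical

/-- extension by the subgroup `K_J'` -/
noncomputable def Phi (cs : CoxeterSystem M K) (C : ∀ i, Set (E i)) (κ : ∀ i, E i → K → E i)
    (J : Set T) (i : ℕ) (c : E i → ℂ) : E i → ℂ := fun x =>
  if h : ∃ e ∈ C i, ∃ w ∈ par cs Jᶜ, κ i e w = x then c h.choose else 0

lemma Phi_apply (hR : Refl bd cs B C mir κ) (J : Set T) {i : ℕ} {c : E i → ℂ}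
    (h0 : ∀ e ∈ un C mir J i, c e = 0) {e : E i} (he : e ∈ C i) (w : K) :
    Phi cs C κ J i c (κ i e w) = if w ∈ par cs Jᶜ then c e else 0 := by
  unfold Phi
  by_cases hw : w ∈ par cs Jᶜ
  · have h : ∃ e' ∈ C i, ∃ w' ∈ par cs Jᶜ, κ i e' w' = κ i e w := ⟨e, he, w, hw, rfl⟩
    rw [dif_pos h, if_pos hw]
    obtain ⟨h1, w', -, h2⟩ := h.choose_spec
    rw [((hR.inj i _ h1 e he w' w).1 h2).1]
  · rw [if_neg hw]
    split_ifs with h
    · obtain ⟨h1, w', hw', h2⟩ := h.choose_spec
      obtain ⟨h3, h4⟩ := (hR.inj i _ h1 e he w' w).1 h2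
      by_cases hm : (mir i e ∩ J).Nonempty
      · rw [h3]
        exact h0 e ⟨he, hm⟩
      · exfalso
        apply hw
        have h5 : mir i e ⊆ Jᶜ := fun t ht htJ => hm ⟨t, ht, htJ⟩
        rw [h3] at h4
        have h6 := mul_mem hw' (par_mono cs h5 h4)
        rwa [mul_inv_cancel_left] at h6
    · rfl

lemma kappa_injOn (hR : Refl bd cs B C mir κ) (i : ℕ) (w : K) :
    Set.InjOn (fun e => κ i e w) (C i) := fun e he e' he' h =>
  ((hR.inj i e he e' he' w w).1 h).1

lemma Phi_mem [Fintype K] (hR : Refl bd cs B C mir κ) (J : Set T) {i : ℕ} {c : E i → ℂ}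
    (hc : Memℓp c 2) : Memℓp (Phi cs C κ J i c) 2 := by
  refine mem_push (K := K) (S := C i) (g := fun w e => κ i e w) (kappa_injOn hR i) hc ?_
  intro x hx
  unfold Phi at hx ⊢
  split_ifs at hx ⊢ with h
  · obtain ⟨h1, w', hw', h2⟩ := h.choose_spec
    exact ⟨w', _, h1, h2, rfl⟩
  · exact (hx rfl).elim

lemma cob_kappa (hR : Refl bd cs B C mir κ) {i : ℕ} (c : E i → ℂ) {e : E (i + 1)}
    (he : e ∈ C (i + 1)) (w : K) :
    cob bd i c (κ (i + 1) e w) = cob bd i (fun f => c (κ i f w)) e := by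
  unfold cob
  rw [hR.bd_smul i e he w, Finsupp.sum_mapDomain_index]
  · intro f; simp
  · intro f a b; push_cast; ring

lemma cob_Phi (hR : Refl bd cs B C mir κ) (J : Set T) {i : ℕ} {c : E i → ℂ}
    (h0 : ∀ e ∈ un C mir J i, c e = 0) (h1 : ∀ e ∈ C (i + 1), cob bd i c e = 0) :
    ∀ x ∈ B (i + 1), cob bd i (Phi cs C κ J i c) x = 0 := by
  intro x hx
  obtain ⟨e, he, w, rfl⟩ := hR.surj _ x hx
  rw [cob_kappa hR _ he]
  by_cases hw : w ∈ par cs Jᶜ
  · rw [← h1 e he]
    exact cob_congr fun f hf => by rw [Phi_apply hR J h0 (hR.sub i e f he hf), if_pos hw]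
  · exact cob_zero' fun f hf => by rw [Phi_apply hR J h0 (hR.sub i e f he hf), if_neg hw]

/-- antisymmetrisation over `K_J` -/
noncomputable def Alt (cs : CoxeterSystem M K) [Fintype K] (C : ∀ i, Set (E i))
    (κ : ∀ i, E i → K → E i) (J : Set T) (i : ℕ) (b : E i → ℂ) : E i → ℂ := fun e =>
  ∑ u : K, (if u ∈ par cs J then sg cs u else 0) * (C i).indicator (fun e => b (κ i e u)) e

lemma Alt_mem [Fintype K] (hR : Refl bd cs B C mir κ) (J : Set T) {i : ℕ} {b : E i → ℂ}
    (hb : Memℓp b 2) : Memℓp (Alt cs C κ J i b) 2 := by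
  have h0 : ∀ u : K, Memℓp (fun e => (if u ∈ par cs J then sg cs u else 0) *
      (C i).indicator (fun e => b (κ i e u)) e) 2 := fun u =>
    (mem_pull (kappa_injOn hR i u) hb).const_smul (if u ∈ par cs J then sg cs u else 0)
  exact Memℓp.finsetSum (E := fun _ : E i => ℂ) Finset.univ fun u _ => h0 u

lemma Alt_apply [Fintype K] (J : Set T) {i : ℕ} (b : E i → ℂ) {e : E i} (he : e ∈ C i) :
    Alt cs C κ J i b e = ∑ u : K, (if u ∈ par cs J then sg cs u else 0) * b (κ i e u) :=
  Finset.sum_congr rfl fun u _ => by rw [Set.indicator_of_mem he]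

lemma Alt_zero [Fintype K] (hR : Refl bd cs B C mir κ) (J : Set T) {i : ℕ} (b : E i → ℂ)
    {e : E i} (he : e ∈ un C mir J i) : Alt cs C κ J i b e = 0 := by
  obtain ⟨he, s, hs, hsJ⟩ := he
  rw [Alt_apply J b he]
  have h1 : ∀ u : K, (if u * cs.simple s ∈ par cs J then sg cs (u * cs.simple s) else 0) *
      b (κ i e (u * cs.simple s)) = - ((if u ∈ par cs J then sg cs u else 0) * b (κ i e u)) := by
    intro u
    have hsm : cs.simple s ∈ par cs J := Subgroup.subset_closure ⟨s, hsJ, rfl⟩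
    have h2 : κ i e (u * cs.simple s) = κ i e u := by
      refine ((hR.inj i e he e he _ _).2 ⟨rfl, ?_⟩).symm
      rw [inv_mul_cancel_left]
      exact Subgroup.subset_closure ⟨s, hs, rfl⟩
    have h3 : u * cs.simple s ∈ par cs J ↔ u ∈ par cs J :=
      Subgroup.mul_mem_cancel_right _ hsm
    rw [h2, sg_mul_simple]
    by_cases hu : u ∈ par cs J
    · rw [if_pos hu, if_pos (h3.2 hu)]; ring
    · rw [if_neg hu, if_neg fun h => hu (h3.1 h)]; ring
  have h4 : ∑ u : K, (if u * cs.simple s ∈ par cs J then sg cs (u * cs.simple s) else 0) *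
      b (κ i e (u * cs.simple s)) = ∑ u : K, (if u ∈ par cs J then sg cs u else 0) * b (κ i e u) :=
    Equiv.sum_comp (Equiv.mulRight (cs.simple s))
      (fun u => (if u ∈ par cs J then sg cs u else 0) * b (κ i e u))
  rw [Finset.sum_congr rfl fun u _ => h1 u, Finset.sum_neg_distrib] at h4
  exact self_eq_neg.1 h4.symm

/-- **JOB REFL.** -/
theorem refl_ : S_REFL := by
  intro E bd T M K _ cs B C mir κ hR hB J
  haveI : Finite K := hR.finite
  letI : Fintype K := Fintype.ofFinite K
  constructor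
  · intro c hc h0 h1 e he
    have h2 := hB.1 _ (Phi_mem hR J hc) (fun e he => he.elim) (cob_Phi hR J h0 h1) (κ 0 e 1)
      (hR.mem 0 e he 1)
    rw [Phi_apply hR J h0 he, if_pos (one_mem _)] at h2
    exact h2
  · intro i c hc h0 h1
    obtain ⟨b, hb, -, h2⟩ := hB.2 i _ (Phi_mem hR J hc) (fun e he => he.elim)
      (cob_Phi hR J h0 h1)
    refine ⟨Alt cs C κ J i b, Alt_mem hR J hb, fun e he => Alt_zero hR J b he, fun e he => ?_⟩
    have h3 : cob bd i (Alt cs C κ J i b) e =
        ∑ u : K, (if u ∈ par cs J then sg cs u else 0) * cob bd i b (κ (i + 1) e u) := by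
      have h4 : cob bd i (Alt cs C κ J i b) e = cob bd i (fun f =>
          ∑ u : K, (if u ∈ par cs J then sg cs u else 0) * b (κ i f u)) e :=
        cob_congr fun f hf => Alt_apply J b (hR.sub i e f he hf)
      rw [h4]
      simp only [cob_kappa hR b he]
      unfold cob Finsupp.sum
      simp only [Finset.mul_sum]
      rw [Finset.sum_comm]
      exact Finset.sum_congr rfl fun u _ => Finset.sum_congr rfl fun f _ => by ring
    rw [h3]
    have h5 : ∀ u : K, (if u ∈ par cs J then sg cs u else 0) * cob bd i b (κ (i + 1) e u) =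
        if u = 1 then c e else 0 := by
      intro u
      rw [← h2 _ (hR.mem _ e he u), Phi_apply hR J h0 he]
      by_cases hu : u = 1
      · rw [hu, if_pos (one_mem _), if_pos (one_mem _), if_pos rfl, sg_one, one_mul]
      · rw [if_neg hu]
        by_cases h6 : u ∈ par cs J
        · rw [if_neg fun h7 => hu (par_inter cs J h6 h7), mul_zero]
        · rw [if_neg h6, zero_mul]
    rw [Finset.sum_congr rfl fun u _ => h5 u, Finset.sum_ite_eq' Finset.univ, if_pos (Finset.mem_univ _)]

end refl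

end Pool.Agent.V5helper82.FT
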