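import Pool.Agent.Q169.ZD.Stm2

/-! # Project ZD, job RES -/

set_option autoImplicit false

open scoped Matrix

namespace Pool.Agent.V5helper82.FT

open Pool.Agent.H919R4.ZS
open Pool.Agent.TH38.CX (AcyclicGComplex)

noncomputable section

variable {N : Type} [Group N] {E : Type} [MulAction N E] {m : ℕ}

/-- the bijection -/
def psi (hfree : ∀ (n : N) (e : E), n • e = e → n = 1) (rep : Fin m → E)
    (hrep : ∀ e : E, ∃! a, e ∈ MulAction.orbit N (rep a)) : E ≃ N × Fin m :=
  (Equiv.ofBijective (fun p : N × Fin m => p.1 • rep p.2) (by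
    constructor
    · rintro ⟨n, a⟩ ⟨n', a'⟩ h
      have h1 : n • rep a = n' • rep a' := h
      have h2 : a = a' := (hrep (n • rep a)).unique ⟨n, rfl⟩ ⟨n', h1.symm⟩
      subst h2
      have h3 : (n'⁻¹ * n) • rep a = rep a := by rw [mul_smul, h1, inv_smul_smul]
      have h4 := hfree _ _ h3
      rw [inv_mul_eq_one] at h4
      rw [h4]
    · intro e
      obtain ⟨a, ⟨n, hn⟩, -⟩ := hrep e
      exact ⟨(n, a), hn⟩)).symm

variable (hfree : ∀ (n : N) (e : E), n • e = e → n = 1) (rep : Fin m → E)
    (hrep : ∀ e : E, ∃! a, e ∈ MulAction.orbit N (rep a))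

lemma psi_symm (n : N) (a : Fin m) : (psi hfree rep hrep).symm (n, a) = n • rep a := rfl

lemma psi_spec (e : E) : (psi hfree rep hrep e).1 • rep (psi hfree rep hrep e).2 = e :=
  (psi hfree rep hrep).symm_apply_apply e

lemma psi_smul (n : N) (e : E) : psi hfree rep hrep (n • e) =
    (n * (psi hfree rep hrep e).1, (psi hfree rep hrep e).2) := by
  apply (psi hfree rep hrep).symm.injective
  rw [Equiv.symm_apply_apply, psi_symm, mul_smul, psi_spec]

/-- the isomorphism `ℤ[E] → ℤ[N]^m` -/
def TT : (E →₀ ℤ) →+ (Fin m → MonoidAlgebra ℤ N) where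
  toFun x := fun j => .ofCoeff (x.comapDomain (fun g => (psi hfree rep hrep).symm (g, j))
    (Function.Injective.injOn fun g g' h => by
      simpa using congrArg Prod.fst ((psi hfree rep hrep).symm.injective h)))
  map_zero' := by
    funext j
    refine MonoidAlgebra.coeff_injective (Finsupp.ext fun g => ?_)
    simp
  map_add' x y := by
    funext j
    refine MonoidAlgebra.coeff_injective (Finsupp.ext fun g => ?_)
    rw [Pi.add_apply, MonoidAlgebra.coeff_add, Finsupp.add_apply, MonoidAlgebra.coeff_ofCoeff,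
      MonoidAlgebra.coeff_ofCoeff, MonoidAlgebra.coeff_ofCoeff, Finsupp.comapDomain_apply,
      Finsupp.comapDomain_apply, Finsupp.comapDomain_apply, Finsupp.add_apply]

lemma TT_coeff (x : E →₀ ℤ) (j : Fin m) (g : N) :
    (TT hfree rep hrep x j).coeff g = x (g • rep j) := by
  change (MonoidAlgebra.ofCoeff _).coeff g = _
  rw [MonoidAlgebra.coeff_ofCoeff, Finsupp.comapDomain_apply]
  rfl

lemma TT_inj : Function.Injective (TT hfree rep hrep) := by
  intro x y h
  refine Finsupp.ext fun e => ?_
  have h1 := congrArg (fun z => (z (psi hfree rep hrep e).2).coeff (psi hfree rep hrep e).1) h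
  simp only [TT_coeff, psi_spec] at h1
  exact h1

lemma TT_single (e : E) (r : ℤ) : TT hfree rep hrep (Finsupp.single e r) =
    Pi.single (psi hfree rep hrep e).2 (MonoidAlgebra.single (psi hfree rep hrep e).1 r) := by
  classical
  funext j
  refine MonoidAlgebra.coeff_injective (Finsupp.ext fun g => ?_)
  rw [TT_coeff, Finsupp.single_apply, Pi.single_apply]
  by_cases hj : j = (psi hfree rep hrep e).2
  · subst hj
    rw [if_pos rfl, MonoidAlgebra.coeff_single, Finsupp.single_apply]
    have : e = g • rep (psi hfree rep hrep e).2 ↔ (psi hfree rep hrep e).1 = g := by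
      constructor
      · intro h
        have h2 := congrArg (psi hfree rep hrep) h
        rw [← psi_symm hfree rep hrep, Equiv.apply_symm_apply] at h2
        exact congrArg Prod.fst h2
      · rintro rfl
        rw [psi_spec]
    simp only [this]
  · rw [if_neg hj, if_neg]
    · simp
    · intro h
      have h2 := congrArg (psi hfree rep hrep) h
      rw [← psi_symm hfree rep hrep, Equiv.apply_symm_apply] at h2
      exact hj (congrArg Prod.snd h2).symm

lemma TT_surj : Function.Surjective (TT hfree rep hrep) := by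
  intro y
  have h1 : ∀ (j : Fin m) (a : MonoidAlgebra ℤ N), ∃ x, TT hfree rep hrep x = Pi.single j a := by
    intro j a
    induction a using MonoidAlgebra.induction_linear with
    | zero => exact ⟨0, by rw [map_zero, Pi.single_zero]⟩
    | add a b ha hb =>
      obtain ⟨x, hx⟩ := ha
      obtain ⟨y, hy⟩ := hb
      exact ⟨x + y, by rw [map_add, hx, hy, ← Pi.single_add]⟩
    | single g r =>
      refine ⟨Finsupp.single (g • rep j) r, ?_⟩
      rw [TT_single, ← psi_symm hfree rep hrep, Equiv.apply_symm_apply]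
  choose x hx using fun j => h1 j (y j)
  refine ⟨∑ j, x j, ?_⟩
  rw [map_sum, Finset.sum_congr rfl fun j _ => hx j, Finset.univ_sum_single]

lemma TT_smul (n : N) (z : E →₀ ℤ) : TT hfree rep hrep (z.mapDomain fun e => n • e) =
    fun k => MonoidAlgebra.single n 1 * TT hfree rep hrep z k := by
  classical
  induction z using Finsupp.induction_linear with
  | zero => simp; rfl
  | add a b ha hb =>
    rw [Finsupp.mapDomain_add, map_add, ha, hb, map_add]
    funext k
    rw [Pi.add_apply, Pi.add_apply, mul_add]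
  | single e r =>
    rw [Finsupp.mapDomain_single, TT_single, TT_single, psi_smul]
    funext k
    rw [Pi.single_apply, Pi.single_apply]
    split_ifs
    · rw [MonoidAlgebra.single_mul_single, one_mul]
    · rw [mul_zero]

lemma augm_single (g : N) (r : ℤ) : augm N (MonoidAlgebra.single g r) = r := by
  change MonoidAlgebra.lift ℤ ℤ N 1 (MonoidAlgebra.single g r) = r
  rw [MonoidAlgebra.lift_single]
  simp

lemma TT_augm (z : E →₀ ℤ) : ∑ j, augm N (TT hfree rep hrep z j) * 1 = z.sum fun _ r => r := by
  classical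
  induction z using Finsupp.induction_linear with
  | zero => simp
  | add a b ha hb =>
    rw [Finsupp.sum_add_index' (fun _ => rfl) (fun _ _ _ => rfl), ← ha, ← hb,
      ← Finset.sum_add_distrib]
    refine Finset.sum_congr rfl fun j _ => ?_
    rw [map_add, Pi.add_apply, map_add, add_mul]
  | single e r =>
    rw [Finsupp.sum_single_index rfl, TT_single, Finset.sum_eq_single (psi hfree rep hrep e).2]
    · rw [Pi.single_eq_same, augm_single, mul_one]
    · intro j _ hj
      rw [Pi.single_eq_of_ne hj, map_zero, zero_mul]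
    · intro h; exact absurd (Finset.mem_univ _) h

/-- **JOB RES**, with the ranks. -/
theorem res_full (N : Type) [Group N] (U : AcyclicGComplex N)
    (hfree : ∀ i (n : N) (e : U.E i), n • e = e → n = 1)
    (c : ℕ → ℕ) (rep : ∀ i, Fin (c i) → U.E i)
    (hrep : ∀ i (e : U.E i), ∃! a, e ∈ MulAction.orbit N (rep i a)) :
    ∃ (X : FinRes N) (ψ : ∀ i, U.E i ≃ N × Fin (X.n i)),
      (X.len = U.len ∧ ∀ i, X.n i = c i) ∧
      (∀ i (n : N) (e : U.E i), ψ i (n • e) = (n * (ψ i e).1, (ψ i e).2)) ∧
      ∀ i (e : U.E (i + 1)) (f : U.E i), (U.bd i (Finsupp.single e 1)) f =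
        (X.d i (ψ (i + 1) e).2 (ψ i f).2).coeff ((ψ (i + 1) e).1⁻¹ * (ψ i f).1) := by
  let τ : ∀ i, (U.E i →₀ ℤ) →+ (Fin (c i) → MonoidAlgebra ℤ N) := fun i =>
    TT (hfree i) (rep i) (hrep i)
  let D : ∀ i, Matrix (Fin (c (i + 1))) (Fin (c i)) (MonoidAlgebra ℤ N) := fun i =>
    Matrix.of fun j => τ i (U.bd i (Finsupp.single (rep (i + 1) j) 1))
  have hchain : ∀ i (x : U.E (i + 1) →₀ ℤ), τ (i + 1) x ᵥ* D i = τ i (U.bd i x) := by
    intro i x
    induction x using Finsupp.induction_linear with
    | zero => rw [map_zero, map_zero, map_zero, Matrix.zero_vecMul]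
    | add a b ha hb => rw [map_add, map_add, map_add, Matrix.add_vecMul, ha, hb]
    | single e r =>
      have e1 := psi_spec (hfree (i + 1)) (rep (i + 1)) (hrep (i + 1)) e
      have e2 : Finsupp.single e r = r • (Finsupp.single (rep (i + 1)
          (psi (hfree (i + 1)) (rep (i + 1)) (hrep (i + 1)) e).2) (1 : ℤ)).mapDomain
          (fun f => (psi (hfree (i + 1)) (rep (i + 1)) (hrep (i + 1)) e).1 • f) := by
        rw [Finsupp.mapDomain_single, e1, Finsupp.smul_single, smul_eq_mul, mul_one]
      have e3 : τ (i + 1) (Finsupp.single e r) = Pi.single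
          (psi (hfree (i + 1)) (rep (i + 1)) (hrep (i + 1)) e).2 (MonoidAlgebra.single
          (psi (hfree (i + 1)) (rep (i + 1)) (hrep (i + 1)) e).1 r) := TT_single _ _ _ e r
      rw [e3, Matrix.single_vecMul]
      rw [e2, map_zsmul, map_zsmul, U.bd_smul]
      have e4 := TT_smul (hfree i) (rep i) (hrep i)
        (psi (hfree (i + 1)) (rep (i + 1)) (hrep (i + 1)) e).1
        (U.bd i (Finsupp.single (rep (i + 1)
          (psi (hfree (i + 1)) (rep (i + 1)) (hrep (i + 1)) e).2) 1))
      change _ = r • TT (hfree i) (rep i) (hrep i) _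
      rw [e4]
      funext k
      have e5 : ∀ (g : N) (a : MonoidAlgebra ℤ N), MonoidAlgebra.single g r * a =
          r • (MonoidAlgebra.single g 1 * a) := by
        intro g a
        rw [← smul_mul_assoc, MonoidAlgebra.smul_single, smul_eq_mul, mul_one]
      exact e5 _ _
  have haug : ∀ x : U.E 0 →₀ ℤ, ∑ j, augm N (τ 0 x j) * 1 = x.sum fun _ r => r :=
    TT_augm (hfree 0) (rep 0) (hrep 0)
  have hinj : ∀ i, Function.Injective (τ i) := fun i => TT_inj (hfree i) (rep i) (hrep i)
  have hsurj : ∀ i, Function.Surjective (τ i) := fun i => TT_surj (hfree i) (rep i) (hrep i)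
  let X : FinRes N :=
    { len := U.len
      n := c
      d := D
      aug := fun _ => 1
      n_eq_zero := by
        intro i hi
        by_contra h
        exact (U.isEmpty i hi).false (rep i ⟨0, Nat.pos_of_ne_zero h⟩)
      surj := by
        obtain ⟨e⟩ := U.nonempty
        refine ⟨τ 0 (Finsupp.single e 1), ?_⟩
        rw [haug, Finsupp.sum_single_index rfl]
      exact_zero := by
        intro x
        obtain ⟨x, rfl⟩ := hsurj 0 x
        rw [haug, U.exact_zero]
        constructor
        · rintro ⟨y, rfl⟩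
          exact ⟨τ 1 y, hchain 0 y⟩
        · rintro ⟨y, hy⟩
          obtain ⟨y, rfl⟩ := hsurj 1 y
          rw [hchain] at hy
          exact ⟨y, hinj 0 hy⟩
      exact_succ := by
        intro i x
        obtain ⟨x, rfl⟩ := hsurj (i + 1) x
        have h0 : τ (i + 1) x ᵥ* D i = 0 ↔ U.bd i x = 0 := by
          rw [hchain]
          constructor
          · intro h
            apply hinj i
            rw [h, map_zero]
          · intro h
            rw [h, map_zero]
        rw [h0, U.exact_succ]
        constructor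
        · rintro ⟨y, rfl⟩
          exact ⟨τ (i + 2) y, hchain (i + 1) y⟩
        · rintro ⟨y, hy⟩
          obtain ⟨y, rfl⟩ := hsurj (i + 2) y
          rw [hchain] at hy
          exact ⟨y, hinj (i + 1) hy⟩ }
  refine ⟨X, fun i => psi (hfree i) (rep i) (hrep i), ⟨rfl, fun _ => rfl⟩,
    fun i n e => psi_smul (hfree i) (rep i) (hrep i) n e, fun i e f => ?_⟩
  change _ = (TT (hfree i) (rep i) (hrep i) (U.bd i (Finsupp.single (rep (i + 1)
    (psi (hfree (i + 1)) (rep (i + 1)) (hrep (i + 1)) e).2) 1))
    (psi (hfree i) (rep i) (hrep i) f).2).coeff _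
  rw [TT_coeff, mul_smul, psi_spec]
  have e1 := psi_spec (hfree (i + 1)) (rep (i + 1)) (hrep (i + 1)) e
  set n := (psi (hfree (i + 1)) (rep (i + 1)) (hrep (i + 1)) e).1
  have e2 : Finsupp.single e (1 : ℤ) = (Finsupp.single (rep (i + 1)
      (psi (hfree (i + 1)) (rep (i + 1)) (hrep (i + 1)) e).2) (1 : ℤ)).mapDomain
      (fun f => n • f) := by
    rw [Finsupp.mapDomain_single, e1]
  conv_lhs => rw [e2, U.bd_smul, ← smul_inv_smul n f]
  exact Finsupp.mapDomain_apply (MulAction.injective n) _ _

/-- **JOB RES.** -/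
theorem res : Pool.Agent.Q169.ZD.S_RES := by
  intro N _ U hfree c rep hrep
  obtain ⟨X, ψ, -, h⟩ := res_full N U hfree c rep hrep
  exact ⟨X, ψ, h⟩

end

end Pool.Agent.V5helper82.FT
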