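import Pool.Agent.Q169.FT.Stm

/-! # Project FT, jobs SEQ and MV -/

set_option autoImplicit false

open scoped ENNReal

namespace Pool.Agent.V5helper82.FT

open Pool.Agent.Q169.FT

section basics

variable {E : ℕ → Type} (bd : ∀ i, E (i + 1) → (E i →₀ ℤ))

lemma mem_ind {ι : Type} (S : Set ι) {c : ι → ℂ} (h : Memℓp c 2) : Memℓp (S.indicator c) 2 := by
  have h2 : 0 < (2 : ℝ≥0∞).toReal := by norm_num
  rw [memℓp_gen_iff h2] at h ⊢
  refine Summable.of_nonneg_of_le (fun _ => by positivity) (fun i => ?_) h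
  by_cases hi : i ∈ S
  · rw [Set.indicator_of_mem hi]
  · rw [Set.indicator_of_notMem hi, norm_zero, Real.zero_rpow h2.ne']
    positivity

variable {bd}

lemma cob_congr {i : ℕ} {c c' : E i → ℂ} {e : E (i + 1)} (h : ∀ f, bd i e f ≠ 0 → c f = c' f) :
    cob bd i c e = cob bd i c' e := by
  refine Finset.sum_congr rfl fun f hf => ?_
  beta_reduce
  rw [h f (Finsupp.mem_support_iff.1 hf)]

lemma cob_zero' {i : ℕ} {c : E i → ℂ} {e : E (i + 1)} (h : ∀ f, bd i e f ≠ 0 → c f = 0) :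
    cob bd i c e = 0 := by
  refine Finset.sum_eq_zero fun f hf => ?_
  beta_reduce
  rw [h f (Finsupp.mem_support_iff.1 hf), mul_zero]

lemma cob_sub (i : ℕ) (c c' : E i → ℂ) (e : E (i + 1)) :
    cob bd i (c - c') e = cob bd i c e - cob bd i c' e := by
  unfold cob Finsupp.sum
  rw [← Finset.sum_sub_distrib]
  exact Finset.sum_congr rfl fun f _ => by beta_reduce; rw [Pi.sub_apply, mul_sub]

lemma cob_ind {A : ∀ i, Set (E i)} (hA : IsSub bd A) {i : ℕ} (c : E i → ℂ) {e : E (i + 1)}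
    (he : e ∈ A (i + 1)) : cob bd i ((A i).indicator c) e = cob bd i c e :=
  cob_congr fun f hf => Set.indicator_of_mem (hA i e f he hf) c

lemma isSub_union {A₁ A₂ : ∀ i, Set (E i)} (h₁ : IsSub bd A₁) (h₂ : IsSub bd A₂) :
    IsSub bd (fun i => A₁ i ∪ A₂ i) := fun i e f he hf =>
  he.imp (fun h => h₁ i e f h hf) (fun h => h₂ i e f h hf)

lemma isSub_inter {A₁ A₂ : ∀ i, Set (E i)} (h₁ : IsSub bd A₁) (h₂ : IsSub bd A₂) :
    IsSub bd (fun i => A₁ i ∩ A₂ i) := fun i e f he hf =>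
  ⟨h₁ i e f he.1 hf, h₂ i e f he.2 hf⟩

end basics

/-- **JOB SEQ.** -/
theorem seq : S_SEQ := by
  intro E bd hg A B hA hB hBA hEA hEAB
  -- the common first step
  have step : ∀ (i : ℕ) (c : E i → ℂ), Memℓp c 2 → (∀ e ∈ B (i + 1), cob bd i c e = 0) →
      ∃ b : E i → ℂ, Memℓp b 2 ∧ (∀ e ∈ B i, b e = 0) ∧
        ∀ e ∈ A (i + 1), cob bd i ((B i).indicator c - b) e = 0 := by
    intro i c hc h0
    set c₁ := (B i).indicator c with hc1
    have hm1 : Memℓp c₁ 2 := mem_ind _ hc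
    obtain ⟨b, hb, hb0, hb1⟩ := hEAB.2 i ((A (i + 1)).indicator (cob bd i c₁))
      (mem_ind _ (hg.mem i c₁ hm1)) (fun e he => by
        rw [Set.indicator_of_mem (hBA _ he), hc1, cob_ind hB c he, h0 e he])
      (fun e he => by
        rw [cob_ind hA _ he, hg.sq]
        rfl)
    refine ⟨b, hb, hb0, fun e he => ?_⟩
    rw [cob_sub, ← hb1 e he, Set.indicator_of_mem he, sub_self]
  constructor
  · intro c hc _ h0 e he
    obtain ⟨b, hb, hb0, hb1⟩ := step 0 c hc h0
    have h1 := hEA.1 _ ((mem_ind _ hc).sub hb) (fun e he => he.elim) hb1 e (hBA 0 he)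
    rw [Pi.sub_apply, Set.indicator_of_mem he, hb0 e he, sub_zero] at h1
    exact h1
  · intro i c hc _ h0
    obtain ⟨b, hb, hb0, hb1⟩ := step (i + 1) c hc h0
    obtain ⟨c', hc', -, h1⟩ := hEA.2 i _ ((mem_ind _ hc).sub hb) (fun e he => he.elim) hb1
    refine ⟨c', hc', fun e he => he.elim, fun e he => ?_⟩
    have h2 := h1 e (hBA _ he)
    rw [Pi.sub_apply, Set.indicator_of_mem he, hb0 e he, sub_zero] at h2
    exact h2

/-- **JOB MV.** -/
theorem mv : S_MV := by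
  intro E bd hg A₁ A₂ hA₁ hA₂ hE₁ hE₂ hE
  set F : ∀ i, Set (E i) := fun i => A₁ i ∩ A₂ i with hF
  have hFs : IsSub bd F := isSub_inter hA₁ hA₂
  have step : ∀ (i : ℕ) (c : E i → ℂ), Memℓp c 2 → (∀ e ∈ F (i + 1), cob bd i c e = 0) →
      ∃ b : E i → ℂ, Memℓp b 2 ∧ (∀ e ∈ A₂ (i + 1), cob bd i b e = 0) ∧
        ∀ e ∈ A₁ (i + 1), cob bd i ((F i).indicator c) e = cob bd i b e := by
    intro i c hc h0
    set c₁ := (F i).indicator c with hc1
    have hm1 : Memℓp c₁ 2 := mem_ind _ hc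
    set d := (A₁ (i + 1)).indicator (cob bd i c₁) with hd
    have hd2 : ∀ e ∈ A₂ (i + 1), d e = 0 := by
      intro e he
      by_cases h1 : e ∈ A₁ (i + 1)
      · rw [hd, Set.indicator_of_mem h1, hc1, cob_ind hFs c ⟨h1, he⟩, h0 e ⟨h1, he⟩]
      · rw [hd, Set.indicator_of_notMem h1]
    obtain ⟨b, hb, -, hb1⟩ := hE.2 i d (mem_ind _ (hg.mem i c₁ hm1)) (fun e he => he.elim)
      (fun e he => by
        rcases he with he | he
        · rw [hd, cob_ind hA₁ _ he, hg.sq]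
          rfl
        · exact cob_zero' fun f hf => hd2 f (hA₂ _ e f he hf))
    refine ⟨b, hb, fun e he => ?_, fun e he => ?_⟩
    · rw [← hb1 e (Or.inr he), hd2 e he]
    · rw [← hb1 e (Or.inl he), hd, Set.indicator_of_mem he]
  constructor
  · intro c hc _ h0 e he
    obtain ⟨b, hb, hb2, hb1⟩ := step 0 c hc h0
    have h3 := hE₂.1 b hb (fun e he => he.elim) hb2 e he.2
    have h1 := hE₁.1 _ ((mem_ind _ hc).sub hb) (fun e he => he.elim) (fun e he => by
      rw [cob_sub, hb1 e he, sub_self]) e he.1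
    rw [Pi.sub_apply, Set.indicator_of_mem he, h3, sub_zero] at h1
    exact h1
  · intro i c hc _ h0
    obtain ⟨b, hb, hb2, hb1⟩ := step (i + 1) c hc h0
    obtain ⟨a, ha, -, ha1⟩ := hE₂.2 i b hb (fun e he => he.elim) hb2
    have hb'm : Memℓp (b - cob bd i a) 2 := hb.sub (hg.mem i a ha)
    obtain ⟨c', hc', -, h1⟩ := hE₁.2 i ((F (i + 1)).indicator c - (b - cob bd i a))
      ((mem_ind _ hc).sub hb'm) (fun e he => he.elim) (fun e he => by
        rw [cob_sub, cob_sub, hb1 e he, hg.sq]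
        simp)
    refine ⟨c', hc', fun e he => he.elim, fun e he => ?_⟩
    have h2 := h1 e he.1
    rw [Pi.sub_apply, Set.indicator_of_mem he, Pi.sub_apply, ← ha1 e he.2, sub_self,
      sub_zero] at h2
    exact h2

end Pool.Agent.V5helper82.FT
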