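import Pool.Agent.V5helper82.FT.Face
import Pool.Agent.Q111.FT.Gap
import Pool.Agent.V5helper82.FT.Defs

/-! # The spectral gap of an exact subcomplex -/

set_option autoImplicit false

open scoped ENNReal InnerProductSpace
open Filter Topology

namespace Pool.Agent.V5helper82.FT

open Pool.Agent.Q169.FT
open Pool.Agent.Q111.FT (mem_extend mem_comp)

noncomputable section

variable {E : ℕ → Type} (bd : ∀ i, E (i + 1) → (E i →₀ ℤ))

variable {bd} (A : ∀ i, Set (E i))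

/-- extension by zero -/
def ex0 (i : ℕ) (x : A i → ℂ) : E i → ℂ := Function.extend Subtype.val x 0

variable {A}

lemma ex0_apply {i : ℕ} (x : A i → ℂ) (e : A i) : ex0 A i x e = x e :=
  Subtype.val_injective.extend_apply _ _ _

lemma ex0_mem' {i : ℕ} (x : A i → ℂ) {e : E i} (he : e ∈ A i) : ex0 A i x e = x ⟨e, he⟩ :=
  ex0_apply x ⟨e, he⟩

lemma ex0_not {i : ℕ} (x : A i → ℂ) {e : E i} (he : e ∉ A i) : ex0 A i x e = 0 :=
  Function.extend_apply' _ _ _ (by rintro ⟨a, rfl⟩; exact he a.2)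

lemma ex0_memlp {i : ℕ} {x : A i → ℂ} (hx : Memℓp x 2) : Memℓp (ex0 A i x) 2 :=
  mem_extend _ Subtype.val_injective x hx

lemma cob_add' (i : ℕ) (c c' : E i → ℂ) (e : E (i + 1)) :
    cob bd i (c + c') e = cob bd i c e + cob bd i c' e := by
  unfold cob Finsupp.sum
  rw [← Finset.sum_add_distrib]
  exact Finset.sum_congr rfl fun f _ => by beta_reduce; rw [Pi.add_apply, mul_add]

lemma cob_smul' (i : ℕ) (a : ℂ) (c : E i → ℂ) (e : E (i + 1)) :
    cob bd i (a • c) e = a * cob bd i c e := by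
  unfold cob Finsupp.sum
  rw [Finset.mul_sum]
  exact Finset.sum_congr rfl fun f _ => by beta_reduce; rw [Pi.smul_apply, smul_eq_mul]; ring

/-- the coboundary of `A` on square summable cochains, as a linear map -/
def Dl (hg : Good bd) (A : ∀ i, Set (E i)) (i : ℕ) :
    lp (fun _ : A i => ℂ) 2 →ₗ[ℂ] lp (fun _ : A (i + 1) => ℂ) 2 where
  toFun x := ⟨fun e => cob bd i (ex0 A i x) e,
    mem_comp _ Subtype.val_injective _ (hg.mem i _ (ex0_memlp (lp.memℓp x)))⟩
  map_add' x y := by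
    refine lp.ext (funext fun e => ?_)
    change cob bd i (ex0 A i ⇑(x + y)) e = cob bd i (ex0 A i x) e + cob bd i (ex0 A i y) e
    rw [← cob_add']
    congr 1
    funext f
    rw [Pi.add_apply]
    by_cases hf : f ∈ A i
    · rw [ex0_mem' _ hf, ex0_mem' _ hf, ex0_mem' _ hf]; rfl
    · rw [ex0_not _ hf, ex0_not _ hf, ex0_not _ hf, add_zero]
  map_smul' a x := by
    refine lp.ext (funext fun e => ?_)
    change cob bd i (ex0 A i ⇑(a • x)) e = a * cob bd i (ex0 A i x) e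
    rw [← cob_smul']
    congr 1
    funext f
    rw [Pi.smul_apply]
    by_cases hf : f ∈ A i
    · rw [ex0_mem' _ hf, ex0_mem' _ hf]; rfl
    · rw [ex0_not _ hf, ex0_not _ hf, smul_zero]

lemma Dl_apply (hg : Good bd) (i : ℕ) (x : lp (fun _ : A i => ℂ) 2) (e : A (i + 1)) :
    Dl hg A i x e = cob bd i (ex0 A i x) e := rfl

lemma tendsto_eval {ι : Type} {u : ℕ → lp (fun _ : ι => ℂ) 2} {x : lp (fun _ : ι => ℂ) 2}
    (h : Tendsto u atTop (𝓝 x)) (i : ι) : Tendsto (fun n => u n i) atTop (𝓝 (x i)) := by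
  rw [tendsto_iff_norm_sub_tendsto_zero] at h ⊢
  refine squeeze_zero (fun _ => norm_nonneg _) (fun n => ?_) h
  exact lp.norm_apply_le_norm (by norm_num) (u n - x) i

/-- the coboundary of `A` on square summable cochains, as a bounded operator -/
def Dc (hg : Good bd) (A : ∀ i, Set (E i)) (i : ℕ) :
    lp (fun _ : A i => ℂ) 2 →L[ℂ] lp (fun _ : A (i + 1) => ℂ) 2 :=
  ContinuousLinearMap.ofSeqClosedGraph (g := Dl hg A i) (by
    intro u x y hu hy
    refine lp.ext (funext fun e => ?_)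
    have h1 : Tendsto (fun n => Dl hg A i (u n) e) atTop (𝓝 (y e)) := tendsto_eval hy e
    have h2 : Tendsto (fun n => Dl hg A i (u n) e) atTop (𝓝 (Dl hg A i x e)) := by
      simp only [Dl_apply]
      unfold cob Finsupp.sum
      refine tendsto_finsetSum _ fun f _ => ?_
      refine Tendsto.const_mul _ ?_
      by_cases hf : f ∈ A i
      · simp only [ex0_mem' _ hf]
        exact tendsto_eval hu ⟨f, hf⟩
      · simp only [ex0_not _ hf]
        exact tendsto_const_nhds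
    exact tendsto_nhds_unique h1 h2)

lemma Dc_apply (hg : Good bd) (i : ℕ) (x : lp (fun _ : A i => ℂ) 2) (e : A (i + 1)) :
    Dc hg A i x e = cob bd i (ex0 A i x) e := rfl

lemma Dc_Dc (hg : Good bd) (hA : IsSub bd A) (i : ℕ) (x : lp (fun _ : A i => ℂ) 2) :
    Dc hg A (i + 1) (Dc hg A i x) = 0 := by
  refine lp.ext (funext fun e => ?_)
  rw [Dc_apply]
  have h1 : cob bd (i + 1) (ex0 A (i + 1) (Dc hg A i x)) e =
      cob bd (i + 1) (cob bd i (ex0 A i x)) e :=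
    cob_congr fun f hf => ex0_mem' _ (hA _ _ f e.2 hf)
  rw [h1, hg.sq]
  rfl

lemma Dc_exact (hg : Good bd) (hA : IsSub bd A) (hE : ExS bd A) (i : ℕ)
    (x : lp (fun _ : A (i + 1) => ℂ) 2) : Dc hg A (i + 1) x = 0 ↔ ∃ w, Dc hg A i w = x := by
  constructor
  · intro h
    obtain ⟨c', hc', -, h1⟩ := hE.2 i (ex0 A (i + 1) x) (ex0_memlp (lp.memℓp x))
      (fun e he => he.elim) (fun e he => by
        have := congrArg (fun z : lp (fun _ : A (i + 1 + 1) => ℂ) 2 => z ⟨e, he⟩) h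
        exact this)
    refine ⟨⟨fun e => c' e, mem_comp _ Subtype.val_injective _ hc'⟩, ?_⟩
    refine lp.ext (funext fun e => ?_)
    rw [Dc_apply, ← ex0_apply (x : A (i + 1) → ℂ) e, h1 e e.2]
    exact cob_congr fun f hf => ex0_mem' _ (hA _ _ f e.2 hf)
  · rintro ⟨w, rfl⟩
    exact Dc_Dc hg hA i w

lemma Dc_inj (hg : Good bd) (hE : ExS bd A) (x : lp (fun _ : A 0 => ℂ) 2)
    (h : Dc hg A 0 x = 0) : x = 0 := by
  refine lp.ext (funext fun e => ?_)
  have h1 := hE.1 (ex0 A 0 x) (ex0_memlp (lp.memℓp x)) (fun e he => he.elim) (fun e he => by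
    have := congrArg (fun z : lp (fun _ : A 1 => ℂ) 2 => z ⟨e, he⟩) h
    exact this) e e.2
  rw [ex0_apply] at h1
  exact h1

lemma Dc_closed (hg : Good bd) (hA : IsSub bd A) (hE : ExS bd A) (i : ℕ) :
    IsClosed (Set.range (Dc hg A i)) := by
  have h1 : Set.range (Dc hg A i) = Dc hg A (i + 1) ⁻¹' {0} := by
    ext x
    exact (Dc_exact hg hA hE i x).symm
  rw [h1]
  exact isClosed_singleton.preimage (Dc hg A (i + 1)).continuous

lemma gap_zero (hg : Good bd) (hA : IsSub bd A) (hE : ExS bd A) :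
    ∃ ε : ℝ, 0 < ε ∧ ∀ v, ε * ‖v‖ ^ 2 ≤ ‖Dc hg A 0 v‖ ^ 2 := by
  obtain ⟨ε, hε, h⟩ := Pool.Agent.Q111.FT.gap (lp (fun _ : A 0 => ℂ) 2) (lp (fun _ : A 0 => ℂ) 2)
    (lp (fun _ : A 1 => ℂ) 2) 0 (Dc hg A 0) (by
      intro v
      constructor
      · intro hv
        exact ⟨0, (Dc_inj hg hE v hv).symm⟩
      · rintro ⟨w, rfl⟩
        simp) (Dc_closed hg hA hE 0)
  refine ⟨ε, hε, fun v => ?_⟩
  have := h v
  rw [map_zero] at this
  simpa using this

lemma gap_succ (hg : Good bd) (hA : IsSub bd A) (hE : ExS bd A) (i : ℕ) :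
    ∃ ε : ℝ, 0 < ε ∧ ∀ v, ε * ‖v‖ ^ 2 ≤
      ‖ContinuousLinearMap.adjoint (Dc hg A i) v‖ ^ 2 + ‖Dc hg A (i + 1) v‖ ^ 2 :=
  Pool.Agent.Q111.FT.gap _ _ _ (Dc hg A i) (Dc hg A (i + 1)) (Dc_exact hg hA hE i)
    (Dc_closed hg hA hE (i + 1))

lemma norm_sq_eq {ι : Type} (v : lp (fun _ : ι => ℂ) 2) : ‖v‖ ^ 2 = ∑' i, ‖v i‖ ^ 2 := by
  have h := lp.hasSum_norm (p := 2) (by norm_num) v
  have h4 : (2 : ENNReal).toReal = ((2 : ℕ) : ℝ) := by norm_num
  simp only [h4, Real.rpow_natCast] at h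
  exact h.tsum_eq.symm

/-- the square summable cochain of `A` given by a finitely supported one -/
def fin (A : ∀ i, Set (E i)) (i : ℕ) (x : E i →₀ ℂ) : lp (fun _ : A i => ℂ) 2 :=
  ⟨fun e => x e, mem_comp _ Subtype.val_injective _ (by
    rw [memlp_iff]
    refine summable_of_ne_finset_zero (s := x.support) fun e he => ?_
    rw [Finsupp.notMem_support_iff.1 he]
    simp)⟩

lemma fin_apply (i : ℕ) (x : E i →₀ ℂ) (e : A i) : fin A i x e = x e := rfl

lemma ex0_fin {i : ℕ} {x : E i →₀ ℂ} (hx : ∀ e ∈ x.support, e ∈ A i) :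
    ex0 A i (fin A i x) = x := by
  funext e
  by_cases he : e ∈ A i
  · rw [ex0_mem' _ he]; rfl
  · rw [ex0_not _ he]
    by_contra h
    exact he (hx e (Finsupp.mem_support_iff.2 fun h' => h h'.symm))

lemma norm_fin {i : ℕ} {x : E i →₀ ℂ} (hx : ∀ e ∈ x.support, e ∈ A i) :
    ‖fin A i x‖ ^ 2 = x.sum fun _ a => ‖a‖ ^ 2 := by
  rw [norm_sq_eq]
  have h1 : ∑' e : A i, ‖(fin A i x) e‖ ^ 2 = ∑' e : E i, ‖x e‖ ^ 2 := by
    refine Function.Injective.tsum_eq (g := fun e : A i => (e : E i)) Subtype.val_injective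
      (f := fun e => ‖x e‖ ^ 2) ?_
    intro e he
    refine ⟨⟨e, hx e (Finsupp.mem_support_iff.2 fun h => he ?_)⟩, rfl⟩
    change ‖x e‖ ^ 2 = 0
    rw [h]; simp
  rw [h1, tsum_eq_sum (s := x.support)]
  · rfl
  · intro e he
    rw [Finsupp.notMem_support_iff.1 he]; simp

lemma norm_Dc_fin (hg : Good bd) {i : ℕ} {x : E i →₀ ℂ} (hx : ∀ e ∈ x.support, e ∈ A i) :
    ‖Dc hg A i (fin A i x)‖ ^ 2 = cobSq bd A i x := by
  rw [norm_sq_eq]
  unfold cobSq
  refine tsum_congr fun e => ?_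
  rw [Dc_apply, ex0_fin hx]

open scoped Classical in
lemma adj_fin (hg : Good bd) (hA : IsSub bd A) {i : ℕ} {x : E (i + 1) →₀ ℂ}
    (hx : ∀ e ∈ x.support, e ∈ A (i + 1)) (f : A i) :
    ContinuousLinearMap.adjoint (Dc hg A i) (fin A (i + 1) x) f =
      x.sum fun e a => a * ((bd i e f : ℤ) : ℂ) := by
  have h1 : ContinuousLinearMap.adjoint (Dc hg A i) (fin A (i + 1) x) f =
      ⟪lp.single 2 f (1 : ℂ), ContinuousLinearMap.adjoint (Dc hg A i) (fin A (i + 1) x)⟫_ℂ := by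
    rw [lp.inner_single_left]
    simp
  rw [h1, ContinuousLinearMap.adjoint_inner_right, lp.inner_eq_tsum]
  have h2 : ∀ e : A (i + 1), Dc hg A i (lp.single 2 f (1 : ℂ)) e = ((bd i e f : ℤ) : ℂ) := by
    intro e
    rw [Dc_apply]
    unfold cob Finsupp.sum
    rw [Finset.sum_eq_single (f : E i)]
    · beta_reduce
      rw [ex0_apply, lp.single_apply_self, mul_one]
    · intro g _ hgf
      beta_reduce
      by_cases hgA : g ∈ A i
      · rw [ex0_mem' _ hgA, lp.single_apply_ne, mul_zero]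
        intro h
        exact hgf (congrArg Subtype.val h)
      · rw [ex0_not _ hgA, mul_zero]
    · intro h
      rw [Finsupp.notMem_support_iff.1 h]
      simp
  have h3 : ∀ e : A (i + 1), ⟪Dc hg A i (lp.single 2 f (1 : ℂ)) e, fin A (i + 1) x e⟫_ℂ =
      x e * ((bd i e f : ℤ) : ℂ) := by
    intro e
    rw [h2, fin_apply]
    simp
  rw [tsum_congr h3]
  have h4 : ∑' e : A (i + 1), x e * ((bd i e f : ℤ) : ℂ) =
      ∑' e : E (i + 1), x e * ((bd i e f : ℤ) : ℂ) := by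
    refine Function.Injective.tsum_eq (g := fun e : A (i + 1) => (e : E (i + 1)))
      Subtype.val_injective (f := fun e => x e * ((bd i e f : ℤ) : ℂ)) ?_
    intro e he
    refine ⟨⟨e, hx e (Finsupp.mem_support_iff.2 fun h => he ?_)⟩, rfl⟩
    change x e * _ = 0
    rw [h, zero_mul]
  rw [h4, tsum_eq_sum (s := x.support)]
  · rfl
  · intro e he
    rw [Finsupp.notMem_support_iff.1 he, zero_mul]

lemma norm_adj_fin (hg : Good bd) (hA : IsSub bd A) {i : ℕ} {x : E (i + 1) →₀ ℂ}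
    (hx : ∀ e ∈ x.support, e ∈ A (i + 1)) :
    ‖ContinuousLinearMap.adjoint (Dc hg A i) (fin A (i + 1) x)‖ ^ 2 = bdSq bd (i + 1) x := by
  rw [norm_sq_eq]
  unfold bdSq
  rw [tsum_congr fun f => by rw [adj_fin hg hA hx f]]
  refine Function.Injective.tsum_eq (g := fun e : A i => (e : E i))
    Subtype.val_injective (f := fun f => ‖x.sum fun e a => a * ((bd i e f : ℤ) : ℂ)‖ ^ 2) ?_
  intro f hf
  by_contra hfA
  apply hf
  change ‖x.sum fun e a => a * ((bd i e f : ℤ) : ℂ)‖ ^ 2 = 0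
  have : (x.sum fun e a => a * ((bd i e f : ℤ) : ℂ)) = 0 := by
    refine Finset.sum_eq_zero fun e he => ?_
    have h0 : bd i e f = 0 := by
      by_contra hne
      exact hfA ⟨⟨f, hA i e f (hx e he) hne⟩, rfl⟩
    beta_reduce
    rw [h0]; simp
  rw [this]; simp

/-- An exact subcomplex has a spectral gap. -/
theorem not_zeroInSpec (hg : Good bd) (hA : IsSub bd A) (hE : ExS bd A) (i : ℕ) :
    ¬ ZeroInSpec bd A i := by
  intro hz
  obtain ⟨ε, hε, h⟩ : ∃ ε : ℝ, 0 < ε ∧ ∀ x : E i →₀ ℂ, (∀ e ∈ x.support, e ∈ A i) →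
      ε * (x.sum fun _ a => ‖a‖ ^ 2) ≤ cobSq bd A i x + bdSq bd i x := by
    cases i with
    | zero =>
      obtain ⟨ε, hε, h⟩ := gap_zero hg hA hE
      refine ⟨ε, hε, fun x hx => ?_⟩
      have := h (fin A 0 x)
      rw [norm_fin hx, norm_Dc_fin hg hx] at this
      unfold bdSq
      rw [add_zero]
      exact this
    | succ i =>
      obtain ⟨ε, hε, h⟩ := gap_succ hg hA hE i
      refine ⟨ε, hε, fun x hx => ?_⟩
      have := h (fin A (i + 1) x)
      rw [norm_fin hx, norm_Dc_fin hg hx, norm_adj_fin hg hA hx] at this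
      linarith
  obtain ⟨x, hx0, hx, hx1⟩ := hz (ε / 2) (by positivity)
  have h1 := h x hx
  have h2 : 0 < x.sum fun _ a => ‖a‖ ^ 2 := by
    obtain ⟨e, he⟩ := Finsupp.support_nonempty_iff.2 hx0
    refine Finset.sum_pos' (fun _ _ => by positivity) ⟨e, he, ?_⟩
    have := Finsupp.mem_support_iff.1 he
    positivity
  have h3 : ε * (x.sum fun _ a => ‖a‖ ^ 2) ≤ ε / 2 * x.sum fun _ a => ‖a‖ ^ 2 := h1.trans hx1
  nlinarith

end

end Pool.Agent.V5helper82.FT
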