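import Pool.Agent.V5helper82.FT.Spec
import Pool.Agent.V5helper82.FT.Acy
import Pool.Agent.V5helper82.FT.Res

/-! # The complex of an acyclic subcomplex with a free action -/

set_option autoImplicit false

namespace Pool.Agent.V5helper82.FT

open Pool.Agent.Q169.FT
open Pool.Agent.TH38.CX (AcyclicGComplex)

noncomputable section

/-- representatives of the orbits -/
lemma exists_rep {G : Type} [Group G] {Z : Type} [MulAction G Z]
    (h : Finite (MulAction.orbitRel.Quotient G Z)) :
    ∃ rep : Fin (Nat.card (MulAction.orbitRel.Quotient G Z)) → Z,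
      ∀ e : Z, ∃! a, e ∈ MulAction.orbit G (rep a) := by
  classical
  let q := Finite.equivFin (MulAction.orbitRel.Quotient G Z)
  refine ⟨fun a => Quotient.out (q.symm a), fun e => ?_⟩
  have key : ∀ a, e ∈ MulAction.orbit G (Quotient.out (q.symm a)) ↔
      a = q (Quotient.mk (MulAction.orbitRel G Z) e) := by
    intro a
    rw [← MulAction.orbitRel_apply, ← Equiv.symm_apply_eq]
    constructor
    · intro h1
      have h2 := Quotient.sound (s := MulAction.orbitRel G Z) h1
      rw [h2]
      exact (Quotient.out_eq (q.symm a)).symm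
    · intro h1
      refine Quotient.exact (s := MulAction.orbitRel G Z) ?_
      rw [← h1]
      exact (Quotient.out_eq (q.symm a)).symm
  exact ⟨_, (key _).2 rfl, fun a ha => (key a).1 ha⟩

section sub

variable {E : ℕ → Type} {bd : ∀ i, E (i + 1) → (E i →₀ ℤ)} {A : ∀ i, Set (E i)}

/-- restriction of chains -/
def rs (A : ∀ i, Set (E i)) (i : ℕ) : (E i →₀ ℤ) →+ (A i →₀ ℤ) where
  toFun x := x.comapDomain Subtype.val Subtype.val_injective.injOn
  map_zero' := by ext; simp
  map_add' x y := by ext; simp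

/-- extension of chains -/
def xt (A : ∀ i, Set (E i)) (i : ℕ) : (A i →₀ ℤ) →+ (E i →₀ ℤ) :=
  Finsupp.mapDomain.addMonoidHom Subtype.val

lemma rs_apply (i : ℕ) (x : E i →₀ ℤ) (f : A i) : rs A i x f = x f := rfl

lemma xt_mem (i : ℕ) (x : A i →₀ ℤ) : xt A i x ∈ su A i := by
  rw [Finsupp.mem_supported]
  intro e he
  by_contra h
  refine Finsupp.mem_support_iff.1 he (Finsupp.mapDomain_of_notMem_range x e ?_)
  rintro ⟨a, rfl⟩
  exact h a.2

lemma rs_xt (i : ℕ) (x : A i →₀ ℤ) : rs A i (xt A i x) = x := by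
  ext f
  rw [rs_apply]
  exact Finsupp.mapDomain_apply Subtype.val_injective x f

lemma xt_rs (i : ℕ) {x : E i →₀ ℤ} (hx : x ∈ su A i) : xt A i (rs A i x) = x := by
  ext f
  by_cases hf : f ∈ A i
  · have := Finsupp.mapDomain_apply Subtype.val_injective (rs A i x) (⟨f, hf⟩ : A i)
    exact this
  · have h1 : x f = 0 := by
      by_contra h
      exact hf (hx (Finsupp.mem_support_iff.2 h))
    rw [h1]
    refine Finsupp.mapDomain_of_notMem_range _ _ ?_
    rintro ⟨a, rfl⟩
    exact hf a.2

lemma xt_single (i : ℕ) (e : A i) (n : ℤ) : xt A i (Finsupp.single e n) =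
    Finsupp.single (e : E i) n := Finsupp.mapDomain_single

/-- the boundary of `A` -/
def bA (bd : ∀ i, E (i + 1) → (E i →₀ ℤ)) (A : ∀ i, Set (E i)) (i : ℕ) :
    (A (i + 1) →₀ ℤ) →+ (A i →₀ ℤ) :=
  (rs A i).comp ((bl bd i).toAddMonoidHom.comp (xt A (i + 1)))

lemma bA_apply (i : ℕ) (x : A (i + 1) →₀ ℤ) : bA bd A i x = rs A i (bl bd i (xt A (i + 1) x)) :=
  rfl

lemma bA_single (i : ℕ) (e : A (i + 1)) (f : A i) :
    bA bd A i (Finsupp.single e 1) f = bd i e f := by
  rw [bA_apply, xt_single, bl_single, one_smul, rs_apply]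

lemma xt_bA (hA : IsSub bd A) (i : ℕ) (x : A (i + 1) →₀ ℤ) :
    xt A i (bA bd A i x) = bl bd i (xt A (i + 1) x) := by
  rw [bA_apply, xt_rs i (bl_mem hA (xt_mem _ x))]

lemma aug_xt (x : A 0 →₀ ℤ) : aug (xt A 0 x) = x.sum fun _ r => r := by
  induction x using Finsupp.induction_linear with
  | zero => simp
  | add x y hx hy =>
    rw [map_add, map_add, hx, hy, Finsupp.sum_add_index' (fun _ => rfl) (fun _ _ _ => rfl)]
  | single e n => rw [xt_single, aug_single, Finsupp.sum_single_index rfl]

variable {L : Type} [Group L]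

lemma bA_smul (a : FreeAction bd A L) (i : ℕ) (g : L) (x : A (i + 1) →₀ ℤ) :
    letI := a.act
    bA bd A i (x.mapDomain (fun e => g • e)) = (bA bd A i x).mapDomain (fun e => g • e) := by
  letI := a.act
  induction x using Finsupp.induction_linear with
  | zero => simp
  | add x y hx hy =>
    rw [Finsupp.mapDomain_add, map_add, map_add, hx, hy, Finsupp.mapDomain_add]
  | single e n =>
    have h1 : ∀ e : A (i + 1), bA bd A i (Finsupp.single e n) =
        n • bA bd A i (Finsupp.single e 1) := by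
      intro e
      rw [← map_zsmul, Finsupp.smul_single, smul_eq_mul, mul_one]
    rw [Finsupp.mapDomain_single, h1, h1, Finsupp.mapDomain_smul]
    congr 1
    ext f
    have h2 : f = g • (g⁻¹ • f) := (smul_inv_smul g f).symm
    rw [h2, Finsupp.mapDomain_apply (MulAction.injective g), bA_single, bA_single, a.inc]

/-- The acyclic complex `A` with the free action of `L`. -/
def gc (hc : CC bd) (hA : IsSub bd A) (hZ : AcyS bd A) (len : ℕ)
    (hlen : ∀ i, len < i → IsEmpty (E i)) (hne : (A 0).Nonempty) (a : FreeAction bd A L) :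
    AcyclicGComplex L where
  E i := A i
  act := a.act
  bd := bA bd A
  bd_smul := bA_smul a
  len := len
  isEmpty i hi := ⟨fun e => (hlen i hi).false e⟩
  nonempty := ⟨⟨_, hne.some_mem⟩⟩
  exact_zero := by
    intro x
    rw [← aug_xt]
    constructor
    · intro h
      obtain ⟨y, hy, hxy⟩ := hZ.1 _ (xt_mem 0 x) h
      refine ⟨rs A 1 y, ?_⟩
      rw [bA_apply, xt_rs 1 hy, hxy, rs_xt]
    · rintro ⟨y, rfl⟩
      rw [xt_bA hA, hc.ad]
  exact_succ := by
    intro i x
    constructor
    · intro h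
      obtain ⟨y, hy, hxy⟩ := hZ.2 i _ (xt_mem (i + 1) x) (by rw [← xt_bA hA, h, map_zero])
      refine ⟨rs A (i + 2) y, ?_⟩
      rw [bA_apply, xt_rs (i + 2) hy, hxy, rs_xt]
    · rintro ⟨y, rfl⟩
      rw [bA_apply, xt_bA hA, hc.dd, map_zero]

lemma sum_symm {ι : Type} (b z : ι →₀ ℤ) : (b.sum fun f n => n * z f) = z.sum fun f n => n * b f := by
  classical
  rw [Finsupp.sum_of_support_subset b (s := b.support ∪ z.support) Finset.subset_union_left
    (fun f n => n * z f) (fun _ _ => zero_mul _),
    Finsupp.sum_of_support_subset z (s := b.support ∪ z.support)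
    Finset.subset_union_right (fun f n => n * b f) (fun _ _ => zero_mul _)]
  exact Finset.sum_congr rfl fun f _ => mul_comm _ _

lemma sum_dz (i : ℕ) (z : A i →₀ ℤ) (e : A (i + 1)) :
    ((bA bd A i (Finsupp.single e 1)).sum fun f n => n * z f) = dz bd A i z e := by
  rw [sum_symm]
  unfold dz
  exact Finsupp.sum_congr fun f _ => by rw [bA_single]

end sub

end

end Pool.Agent.V5helper82.FT
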